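import Mathlib

/-!
# Real homomorphisms separating elements of infinite order modulo commutators
-/

set_option autoImplicit false

open Filter Topology

namespace Pool.Agent.Lib.Pf720np

/-- an element of infinite order modulo the commutator subgroup is not killed by some
homomorphism to the reals -/
theorem exists_hom {G : Type} [Group G] (g : G) (h : ∀ r : ℕ, 0 < r → g ^ r ∉ commutator G) :
    ∃ φ : G → ℝ, (∀ a b, φ (a * b) = φ a + φ b) ∧ φ g ≠ 0 := by
  set a : Additive (Abelianization G) := Additive.ofMul (Abelianization.of g) with ha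
  have hinj : Function.Injective (zmultiplesHom (Additive (Abelianization G)) a) := by
    rw [injective_iff_map_eq_zero]
    intro n hn
    by_contra hn0
    have h1 : ((Abelianization.of g) ^ n : Abelianization G) = 1 := by
      have : n • a = 0 := hn
      rw [ha, ← ofMul_zpow] at this
      exact Additive.ofMul.injective this
    have h2 : (Abelianization.of g) ^ n.natAbs = 1 := by
      rcases Int.natAbs_eq n with h | h
      · rw [h, zpow_natCast] at h1
        exact h1
      · rw [h, zpow_neg, zpow_natCast, inv_eq_one] at h1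
        exact h1
    rw [← map_pow] at h2
    refine h n.natAbs (Int.natAbs_pos.2 hn0) ?_
    exact (QuotientGroup.eq_one_iff _).1 h2
  obtain ⟨f, hf⟩ := (Module.Baer.of_divisible (A := ℝ)).extension_property_addMonoidHom
    (zmultiplesHom (Additive (Abelianization G)) a) hinj (Int.castAddHom ℝ)
  refine ⟨fun x => f (Additive.ofMul (Abelianization.of x)), fun x y => ?_, ?_⟩
  · simp only
    rw [map_mul, ofMul_mul, map_add]
  · have h1 := DFunLike.congr_fun hf 1
    simp only [AddMonoidHom.comp_apply, zmultiplesHom_apply, one_smul] at h1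
    simp only
    rw [← ha, h1]
    simp

/-- a vector space over the reals is not a finite union of kernels -/
theorem exists_generic {Λ : Type} [Finite Λ] {E M : Type} [AddCommGroup E] [Module ℝ E]
    [AddCommGroup M] [Module ℝ M] (L : Λ → E →ₗ[ℝ] M) (h : ∀ c, ∃ x, L c x ≠ 0) :
    ∃ x, ∀ c, L c x ≠ 0 := by
  classical
  let _ : Fintype Λ := Fintype.ofFinite Λ
  have h1 := Subspace.biUnion_ne_univ_of_top_notMem
    (s := Finset.univ.image fun c => LinearMap.ker (L c)) (k := ℝ) (E := E) (by
      intro h0
      obtain ⟨c, -, hc⟩ := Finset.mem_image.1 h0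
      obtain ⟨x, hx⟩ := h c
      exact hx (LinearMap.mem_ker.1 (hc ▸ Submodule.mem_top)))
  rw [Set.ne_univ_iff_exists_notMem] at h1
  obtain ⟨x, hx⟩ := h1
  refine ⟨x, fun c hc => hx ?_⟩
  simp only [Set.mem_iUnion]
  exact ⟨LinearMap.ker (L c), Finset.mem_image_of_mem _ (Finset.mem_univ c), LinearMap.mem_ker.2 hc⟩

end Pool.Agent.Lib.Pf720np
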