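import Pool.Agent.Lib.Pf720np.Cplx
import Pool.Agent.Lib.Pf720np.Hom
import Pool.Agent.Lib.Pf720pp.Base

/-!
# Polynomial exponents in a group
-/

set_option autoImplicit false
set_option linter.unusedSectionVars false

open Finset MeasureTheory Filter Topology
open scoped ENNReal

namespace Pool.Agent.Lib.Pf720np

open Pool.Agent.Lib.Pf720ae
open Pool.Agent.Lib.Pf720pp (lineBd_of_poly)
open Pool.Agent.Lib.Pf720pp.CoreAux (LineBd)

variable {κ : Type} [Fintype κ] [DecidableEq κ]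

/-- a sum of polynomials in the separate variables -/
noncomputable def sp (P : κ → Polynomial ℝ) (m : κ → ℕ) : ℝ := ∑ l, (P l).eval ((m l : ℝ) + 1)

lemma sp_update (P : κ → Polynomial ℝ) (m : κ → ℕ) (l : κ) (t : ℕ) :
    sp P (Function.update m l t) = sp P (Function.update m l 0) +
      (((P l).comp (Polynomial.X + 1)).eval (t : ℝ) -
        ((P l).comp (Polynomial.X + 1)).eval 0) := by
  unfold sp
  rw [← Finset.add_sum_erase _ _ (Finset.mem_univ l), ← Finset.add_sum_erase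
    (f := fun l' => (P l').eval (((Function.update m l 0 l' : ℕ) : ℝ) + 1)) _ (Finset.mem_univ l)]
  have h1 : ∑ x ∈ Finset.univ.erase l, (P x).eval (((Function.update m l t x : ℕ) : ℝ) + 1) =
      ∑ x ∈ Finset.univ.erase l, (P x).eval (((Function.update m l 0 x : ℕ) : ℝ) + 1) := by
    refine Finset.sum_congr rfl fun x hx => ?_
    rw [Function.update_of_ne (Finset.ne_of_mem_erase hx),
      Function.update_of_ne (Finset.ne_of_mem_erase hx)]
  rw [h1, Function.update_self, Function.update_self]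
  simp only [Polynomial.eval_comp, Polynomial.eval_add, Polynomial.eval_X, Polynomial.eval_one,
    Nat.cast_zero]
  ring

lemma lineBd_sp (P : κ → Polynomial ℝ) (l : κ) (h : ∃ n, (P l).coeff (n + 1) ≠ 0) (p : ℝ)
    (hp : 0 ≤ p) : ∃ C, LineBd (sp P) l p C := by
  refine lineBd_of_poly (sp P) l ((P l).comp (Polynomial.X + 1)) ?_ (fun m t => sp_update P m l t)
    hp
  obtain ⟨n, hn⟩ := h
  rw [Polynomial.natDegree_comp]
  have h1 : (Polynomial.X + 1 : Polynomial ℝ).natDegree = 1 := by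
    have := Polynomial.natDegree_X_add_C (1 : ℝ)
    simpa using this
  rw [h1, mul_one]
  intro h0
  exact hn (Polynomial.coeff_eq_zero_of_natDegree_lt (by omega))

section group

variable {G : Type} [Group G] {d : ℕ}

/-- ordered product of powers -/
def gw (t : Fin d → G) (e : Fin d → ℤ) : G := (List.ofFn fun i => t i ^ e i).prod

lemma phi_zpow {φ : G → ℝ} (hφ : ∀ a b, φ (a * b) = φ a + φ b) (a : G) (z : ℤ) :
    φ (a ^ z) = z * φ a := by
  set F : G →* Multiplicative ℝ := ⟨⟨fun g => Multiplicative.ofAdd (φ g), by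
    rw [phi_one hφ]; rfl⟩, fun x y => by simp only; rw [hφ]; rfl⟩ with hF
  have h := map_zpow F a z
  have h2 : φ (a ^ z) = z • φ a := congrArg Multiplicative.toAdd h
  rw [h2, zsmul_eq_mul]

lemma phi_gw {φ : G → ℝ} (hφ : ∀ a b, φ (a * b) = φ a + φ b) (t : Fin d → G) (e : Fin d → ℤ) :
    φ (gw t e) = ∑ i, (e i : ℝ) * φ (t i) := by
  unfold gw
  induction d with
  | zero => simp [phi_one hφ]
  | succ d ih =>
    rw [List.ofFn_succ, List.prod_cons, hφ, ih (fun i => t i.succ) (fun i => e i.succ),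
      Fin.sum_univ_succ, phi_zpow hφ]

/-- the real polynomial of an integer polynomial vector, for given weights -/
noncomputable def rq (c : Fin d → ℝ) (q : Fin d → Polynomial ℤ) : Polynomial ℝ :=
  ∑ i, Polynomial.C (c i) * (q i).map (Int.castRingHom ℝ)

lemma rq_eval (c : Fin d → ℝ) (q : Fin d → Polynomial ℤ) (z : ℤ) :
    (rq c q).eval (z : ℝ) = ∑ i, (((q i).eval z : ℤ) : ℝ) * c i := by
  rw [rq, Polynomial.eval_finsetSum]
  refine Finset.sum_congr rfl fun i _ => ?_
  rw [Polynomial.eval_mul, Polynomial.eval_C, mul_comm]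
  congr 1
  have h := Polynomial.eval_intCast_map (Int.castRingHom ℝ) (q i) z
  simpa using h

lemma rq_coeff (c : Fin d → ℝ) (q : Fin d → Polynomial ℤ) (n : ℕ) :
    (rq c q).coeff n = ∑ i, (((q i).coeff n : ℤ) : ℝ) * c i := by
  rw [rq, Polynomial.finsetSum_coeff]
  refine Finset.sum_congr rfl fun i _ => ?_
  rw [Polynomial.coeff_C_mul, Polynomial.coeff_map, mul_comm]
  rfl

lemma rq_sub (c : Fin d → ℝ) (q q' : Fin d → Polynomial ℤ) :
    rq c (fun i => q i - q' i) = rq c q - rq c q' := by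
  simp only [rq, Polynomial.map_sub, mul_sub, Finset.sum_sub_distrib]

/-- the exponent -/
def ex (q : κ → Fin d → Polynomial ℤ) (m : κ → ℕ) : Fin d → ℤ :=
  fun i => ∑ l, (q l i).eval ((m l : ℤ) + 1)

lemma phi_ex {φ : G → ℝ} (hφ : ∀ a b, φ (a * b) = φ a + φ b) (t : Fin d → G)
    (q : κ → Fin d → Polynomial ℤ) (m : κ → ℕ) :
    φ (gw t (ex q m)) = sp (fun l => rq (fun i => φ (t i)) (q l)) m := by
  rw [phi_gw hφ]
  unfold sp ex
  have h : ∀ l, (rq (fun i => φ (t i)) (q l)).eval ((m l : ℝ) + 1) =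
      ∑ i, (((q l i).eval ((m l : ℤ) + 1) : ℤ) : ℝ) * φ (t i) := by
    intro l
    rw [← rq_eval]
    push_cast
    rfl
  simp_rw [h]
  rw [Finset.sum_comm]
  refine Finset.sum_congr rfl fun i _ => ?_
  push_cast
  rw [Finset.sum_mul]

/-- some difference of two values has infinite order modulo commutators -/
def Ess (g : ℤ → G) : Prop := ∃ a b : ℤ, ∀ r : ℕ, 0 < r → ((g a)⁻¹ * g b) ^ r ∉ commutator G

/-- the vector space of the real homomorphisms -/
def Hm (G : Type) [Group G] : Submodule ℝ (G → ℝ) where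
  carrier := {φ | ∀ a b, φ (a * b) = φ a + φ b}
  add_mem' := by
    intro φ ψ h1 h2 a b
    simp only [Pi.add_apply]
    rw [h1, h2]
    ring
  zero_mem' := by intro a b; simp
  smul_mem' := by
    intro c φ h a b
    simp only [Pi.smul_apply, smul_eq_mul]
    rw [h]
    ring

/-- the positive coefficients of `rq` as a linear map -/
noncomputable def cl (t : Fin d → G) (q : Fin d → Polynomial ℤ) : Hm G →ₗ[ℝ] (ℕ → ℝ) where
  toFun φ n := (rq (fun i => φ.1 (t i)) q).coeff (n + 1)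
  map_add' := by
    intro φ ψ
    funext n
    simp only [rq_coeff, Pi.add_apply, Submodule.coe_add, mul_add, Finset.sum_add_distrib]
  map_smul' := by
    intro c φ
    funext n
    simp only [rq_coeff, Pi.smul_apply, Submodule.coe_smul, smul_eq_mul, RingHom.id_apply,
      Finset.mul_sum]
    refine Finset.sum_congr rfl fun i _ => ?_
    ring

lemma cl_ne_zero {t : Fin d → G} {q : Fin d → Polynomial ℤ} {φ : Hm G} (h : cl t q φ ≠ 0) :
    ∃ n, (rq (fun i => φ.1 (t i)) q).coeff (n + 1) ≠ 0 := by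
  by_contra hcon
  push Not at hcon
  exact h (funext hcon)

lemma exists_cl {t : Fin d → G} {q : Fin d → Polynomial ℤ} {φ : G → ℝ}
    (hφ : ∀ a b, φ (a * b) = φ a + φ b) {a b : ℤ}
    (h : (rq (fun i => φ (t i)) q).eval (a : ℝ) ≠ (rq (fun i => φ (t i)) q).eval (b : ℝ)) :
    cl t q ⟨φ, hφ⟩ ≠ 0 := by
  intro h0
  refine h ?_
  have h1 : (rq (fun i => φ (t i)) q).natDegree = 0 := by
    by_contra hd
    obtain ⟨n, hn⟩ := Nat.exists_eq_succ_of_ne_zero hd
    have h2 := congrFun h0 n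
    have h3 : (rq (fun i => φ (t i)) q).coeff (n + 1) = 0 := h2
    rw [← Nat.succ_eq_add_one, ← hn] at h3
    have h5 : rq (fun i => φ (t i)) q ≠ 0 := by
      intro h5
      rw [h5] at hd
      simp at hd
    exact Polynomial.leadingCoeff_ne_zero.2 h5 h3
  obtain ⟨c, hc⟩ := Polynomial.natDegree_eq_zero.1 h1
  rw [← hc]
  simp

/-- the homomorphism adapted to the exponents -/
theorem exists_phi {J : Type} [Fintype J] [DecidableEq J] (t : Fin d → G)
    (q : J → κ → Fin d → Polynomial ℤ)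
    (h1 : ∀ j l, Ess fun z => gw t fun i => (q j l i).eval z)
    (h2 : ∀ i j, i ≠ j → ∃ l, Ess fun z =>
      (gw t fun i' => (q i l i').eval z)⁻¹ * gw t fun i' => (q j l i').eval z) :
    ∃ φ : G → ℝ, (∀ a b, φ (a * b) = φ a + φ b) ∧
      (∀ j l, ∃ n, (rq (fun i => φ (t i)) (q j l)).coeff (n + 1) ≠ 0) ∧
      ∀ i j, i ≠ j → ∃ l n, (rq (fun i => φ (t i)) (q i l) -
        rq (fun i => φ (t i)) (q j l)).coeff (n + 1) ≠ 0 := by
  classical
  have h2' : ∀ p : {p : J × J // p.1 ≠ p.2}, ∃ l, Ess fun z =>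
      (gw t fun i' => (q p.1.1 l i').eval z)⁻¹ * gw t fun i' => (q p.1.2 l i').eval z :=
    fun p => h2 _ _ p.2
  choose lp hlp using h2'
  obtain ⟨φ, hφ⟩ := exists_generic (Λ := (J × κ) ⊕ {p : J × J // p.1 ≠ p.2}) (E := Hm G)
    (M := ℕ → ℝ) (Sum.elim (fun p => cl t (q p.1 p.2))
      (fun p => cl t fun i => q p.1.1 (lp p) i - q p.1.2 (lp p) i)) (by
    rintro (⟨j, l⟩ | p)
    · obtain ⟨a, b, hab⟩ := h1 j l
      obtain ⟨φ, hφ, hne⟩ := exists_hom _ hab
      refine ⟨⟨φ, hφ⟩, exists_cl hφ (a := a) (b := b) fun he => hne ?_⟩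
      rw [hφ, phi_inv hφ, phi_gw hφ, phi_gw hφ, ← rq_eval, ← rq_eval, he]
      ring
    · obtain ⟨a, b, hab⟩ := hlp p
      obtain ⟨φ, hφ, hne⟩ := exists_hom _ hab
      refine ⟨⟨φ, hφ⟩, exists_cl hφ (a := a) (b := b) fun he => hne ?_⟩
      rw [rq_sub, Polynomial.eval_sub, Polynomial.eval_sub] at he
      rw [hφ, phi_inv hφ, hφ, hφ, phi_inv hφ, phi_inv hφ, phi_gw hφ, phi_gw hφ, phi_gw hφ,
        phi_gw hφ, ← rq_eval, ← rq_eval, ← rq_eval, ← rq_eval]
      linarith)
  refine ⟨φ.1, φ.2, fun j l => cl_ne_zero (hφ (Sum.inl (j, l))), fun i j hij => ?_⟩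
  obtain ⟨n, hn⟩ := cl_ne_zero (hφ (Sum.inr ⟨(i, j), hij⟩))
  rw [rq_sub] at hn
  exact ⟨_, n, hn⟩

lemma expo_of {J : Type} [Fintype J] [DecidableEq J] (t : Fin d → G)
    (q : J → κ → Fin d → Polynomial ℤ) (φ : G → ℝ) (hφ : ∀ a b, φ (a * b) = φ a + φ b)
    (h1 : ∀ j l, ∃ n, (rq (fun i => φ (t i)) (q j l)).coeff (n + 1) ≠ 0)
    (h2 : ∀ i j, i ≠ j → ∃ l n, (rq (fun i => φ (t i)) (q i l) -
        rq (fun i => φ (t i)) (q j l)).coeff (n + 1) ≠ 0) (j₀ : J) :
    Expo φ (fun j (m : κ → ℕ) => gw t (ex (q j) m)) j₀ := by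
  have e : ∀ j, (fun m : κ → ℕ => φ (gw t (ex (q j) m))) =
      sp (fun l => rq (fun i => φ (t i)) (q j l)) := fun j => funext fun m => phi_ex hφ t (q j) m
  refine ⟨fun j l => Or.inl fun p hp => ?_, fun l p hp => ?_, fun i j hij p hp => ?_⟩
  · rw [e j]
    exact lineBd_sp _ l (h1 j l) p hp
  · rw [e j₀]
    exact lineBd_sp _ l (h1 j₀ l) p hp
  · obtain ⟨l, hl⟩ := h2 i j hij
    have e2 : (fun m : κ → ℕ => φ (gw t (ex (q i) m)) - φ (gw t (ex (q j) m))) =
        sp (fun l => rq (fun i => φ (t i)) (q i l) - rq (fun i => φ (t i)) (q j l)) := by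
      funext m
      rw [phi_ex hφ t (q i) m, phi_ex hφ t (q j) m]
      unfold sp
      rw [← Finset.sum_sub_distrib]
      exact Finset.sum_congr rfl fun l _ => by rw [Polynomial.eval_sub]
    obtain ⟨C, hC⟩ := lineBd_sp (fun l => rq (fun i => φ (t i)) (q i l) -
      rq (fun i => φ (t i)) (q j l)) l hl p hp
    exact ⟨l, C, by rw [e2]; exact hC⟩

end group

end Pool.Agent.Lib.Pf720np
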