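import Pool.Agent.Lib.Pf720np.Poly

/-!
# The characteristic factor theorem for polynomial averages of groups of permutations
-/

set_option autoImplicit false
set_option linter.unusedSectionVars false

open Finset MeasureTheory Filter Topology
open scoped ENNReal

namespace Pool.Agent.Lib.Pf720np

open Pool.Agent.Lib.Pf720ae
open Pool.Agent.Lib.Pf720pi (past tail past_mono past_le tail_le tail_le_past comap_le_past
  exists_tail_limit)

section perm

variable {X : Type} {d : ℕ} (T : Fin d → Equiv.Perm X)

/-- the generators inside the generated group -/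
def gens : Fin d → Subgroup.closure (Set.range T) := fun i =>
  ⟨T i, Subgroup.subset_closure ⟨i, rfl⟩⟩

/-- the action of the generated group -/
def pact : Subgroup.closure (Set.range T) → X → X := fun g x => (g : Equiv.Perm X) x

lemma coe_gw (e : Fin d → ℤ) :
    ((gw (gens T) e : Subgroup.closure (Set.range T)) : Equiv.Perm X) = pw T e := by
  unfold gw pw
  rw [Subgroup.val_list_prod, List.map_ofFn]
  rfl

lemma pact_gw (e : Fin d → ℤ) (x : X) : pact T (gw (gens T) e) x = pw T e x := by
  unfold pact
  rw [coe_gw]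

lemma pact_mul (a b : Subgroup.closure (Set.range T)) (x : X) :
    pact T (a * b) x = pact T a (pact T b x) := rfl

lemma pact_mp {mX : MeasurableSpace X} {μ : Measure X}
    (hT : ∀ i, Measurable (T i) ∧ Measurable (T i).symm ∧ MeasurePreserving (T i) μ μ)
    (g : Subgroup.closure (Set.range T)) : MeasurePreserving (pact T g) μ μ := by
  have key : ∀ g ∈ Subgroup.closure (Set.range T), MeasurePreserving (g : X → X) μ μ ∧
      MeasurePreserving (g.symm : X → X) μ μ := by
    intro g hg
    induction hg using Subgroup.closure_induction with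
    | mem g hg =>
      obtain ⟨i, rfl⟩ := hg
      refine ⟨(hT i).2.2, (hT i).2.1, ?_⟩
      conv_lhs => rw [← (hT i).2.2.map_eq]
      rw [Measure.map_map (hT i).2.1 (hT i).1]
      simp
    | one => exact ⟨MeasurePreserving.id μ, MeasurePreserving.id μ⟩
    | mul a b _ _ ha hb => exact ⟨ha.1.comp hb.1, hb.2.comp ha.2⟩
    | inv a _ ha => exact ⟨ha.2, ha.1⟩
  exact (key g g.2).1

/-- maximal inequality when the maps that occur commute -/
lemma maxBd_pw {κ : Type} [Fintype κ] [DecidableEq κ] {mX : MeasurableSpace X} {μ : Measure X}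
    [IsProbabilityMeasure μ]
    (hT : ∀ i, Measurable (T i) ∧ Measurable (T i).symm ∧ MeasurePreserving (T i) μ μ)
    (q : κ → Fin d → Polynomial ℤ)
    (hc : ∀ i i', (∃ l, q l i ≠ 0) → (∃ l, q l i' ≠ 0) → T i * T i' = T i' * T i) :
    MaxBd μ (fun (m : κ → ℕ) x => pact T (gw (gens T) (ex q m)) x) := by
  classical
  set T' : Fin d → Equiv.Perm X := fun i => if ∃ l, q l i ≠ 0 then T i else 1 with hT'
  have hT'mp : ∀ i, Measurable (T' i) ∧ Measurable (T' i).symm ∧ MeasurePreserving (T' i) μ μ := by
    intro i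
    simp only [hT']
    split_ifs with h
    · exact hT i
    · exact ⟨measurable_id, measurable_id, MeasurePreserving.id μ⟩
  have hT'c : ∀ i i', T' i * T' i' = T' i' * T' i := by
    intro i i'
    simp only [hT']
    split_ifs with h h'
    · exact hc i i' h h'
    all_goals simp
  have he : ∀ (m : κ → ℕ), pw T (ex q m) = pw T' (ex q m) := by
    intro m
    unfold pw
    congr 2
    funext i
    simp only [hT']
    split_ifs with h
    · rfl
    · push Not at h
      have : ex q m i = 0 := by
        unfold ex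
        exact Finset.sum_eq_zero fun l _ => by rw [h l]; simp
      rw [this, zpow_zero, zpow_zero]
  have h := maxBd_poly (μ := μ) (act := fun e x => pw T' e x) (fun x => by rw [pw_zero]; rfl)
    (fun p q x => by rw [pw_add T' hT'c]; rfl) (fun p => mp_pw T' hT'mp p)
    (fun (l : κ) i => (q l i).comp (Polynomial.X + 1))
  have e2 : (fun (m : κ → ℕ) (x : X) => pact T (gw (gens T) (ex q m)) x) =
      fun (m : κ → ℕ) x => pw T' (fun i => ∑ l, ((q l i).comp (Polynomial.X + 1)).eval
        ((m l : ℕ) : ℤ)) x := by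
    funext m x
    rw [pact_gw, he m]
    congr 2
    unfold ex
    funext i
    refine Finset.sum_congr rfl fun l _ => ?_
    simp [Polynomial.eval_comp]
  rw [e2]
  exact h

end perm

/-- bounded functions have bounded conditional expectations -/
lemma memLp_condExp {X : Type} {m : MeasurableSpace X} {mX : MeasurableSpace X} {μ : Measure X}
    [IsProbabilityMeasure μ] (hm : m ≤ mX) {f : X → ℂ} (hf : MemLp f ⊤ μ) :
    MemLp (μ[f | m]) ⊤ μ := by
  obtain ⟨C, hC⟩ : ∃ C : ℝ, ∀ᵐ x ∂μ, ‖f x‖ ≤ C := by
    have hlt : eLpNormEssSup f μ < ∞ := by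
      have := hf.2
      rwa [eLpNorm_exponent_top] at this
    refine ⟨(eLpNormEssSup f μ).toReal, ?_⟩
    filter_upwards [enorm_ae_le_eLpNormEssSup f μ] with x hx
    have h1 := ENNReal.toReal_mono hlt.ne hx
    rwa [toReal_enorm] at h1
  have h1 : μ[fun x => ‖f x‖ | m] ≤ᵐ[μ] μ[fun _ => C | m] :=
    condExp_mono (hf.integrable le_top).norm (integrable_const _) hC
  rw [condExp_const hm] at h1
  refine MemLp.of_bound (stronglyMeasurable_condExp.mono hm).aestronglyMeasurable C ?_
  filter_upwards [norm_condExp_le (μ := μ) (m := m) f, h1] with x a1 a2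
  exact a1.trans a2

theorem main {X : Type} (𝒩 : MeasurableSpace X) {mX : MeasurableSpace X} {μ : Measure X}
    [IsProbabilityMeasure μ] (h𝒩 : 𝒩 ≤ mX) {d : ℕ} (T : Fin d → Equiv.Perm X)
    (hT : ∀ i, Measurable (T i) ∧ Measurable (T i).symm ∧ MeasurePreserving (T i) μ μ)
    (hE : TailZero (Subgroup.closure (Set.range T)))
    (hZ : ∀ A : Set X, MeasurableSet A → ZeroEnt μ (pact T) A →
      ∃ B, MeasurableSet[𝒩] B ∧ A =ᵐ[μ] B)
    {κ : Type} [Fintype κ] [DecidableEq κ] [Nonempty κ] {J : Type} [Fintype J] [DecidableEq J]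
    (q : J → κ → Fin d → Polynomial ℤ)
    (hMax : ∀ j, MaxBd μ (fun (m : κ → ℕ) x => pact T (gw (gens T) (ex (q j) m)) x))
    (h1 : ∀ j l, Ess fun z => gw (gens T) fun i => (q j l i).eval z)
    (h2 : ∀ i j, i ≠ j → ∃ l, Ess fun z =>
      (gw (gens T) fun i' => (q i l i').eval z)⁻¹ * gw (gens T) fun i' => (q j l i').eval z)
    (f : J → X → ℂ) (hf : ∀ j, MemLp (f j) ⊤ μ) :
    ∀ᵐ x ∂μ, Tendsto (fun M : κ → ℕ =>
      (∏ l, (M l : ℂ))⁻¹ * (∑ m ∈ Fintype.piFinset (fun l => Finset.Icc 1 (M l)),
        ∏ j, f j (pw T (fun i => ∑ l, (q j l i).eval (m l : ℤ)) x)) -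
      (∏ l, (M l : ℂ))⁻¹ * (∑ m ∈ Fintype.piFinset (fun l => Finset.Icc 1 (M l)),
        ∏ j, (μ[f j | 𝒩]) (pw T (fun i => ∑ l, (q j l i).eval (m l : ℤ)) x)))
      atTop (𝓝 0) := by
  classical
  obtain ⟨φ, hφ, hφ1, hφ2⟩ := exists_phi (gens T) q h1 h2
  set W := pact T with hW
  have hWmp : ∀ a, MeasurePreserving (W a) μ μ := pact_mp T hT
  have hWm : ∀ a, Measurable (W a) := fun a => (hWmp a).measurable
  set S : J → (κ → ℕ) → Subgroup.closure (Set.range T) := fun j m => gw (gens T) (ex (q j) m)
    with hS
  -- the basic vanishing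
  have key : ∀ (g : J → X → ℂ) (j₀ : J), (∀ j, MemLp (g j) ⊤ μ) →
      (∀ B, MeasurableSet[𝒩] B → ∫ x in B, g j₀ x ∂μ = 0) →
      ∀ᵐ x ∂μ, Tendsto (fun M : κ → ℕ => (∏ l, (M l : ℂ))⁻¹ *
        ∑ m ∈ Fintype.piFinset (fun l => Finset.range (M l)), ∏ j, g j (W (S j m) x))
        atTop (𝓝 0) := by
    intro g j₀ hg hg0
    refine nul_complex W (fun x => rfl) (fun a b x => rfl) hWmp φ hφ S hMax j₀
      (expo_of (gens T) q φ hφ hφ1 hφ2 j₀) g hg ?_
    intro ι hι P hP A hA
    have hPle : MeasurableSpace.comap P ⊤ ≤ mX := by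
      rintro s ⟨t, -, rfl⟩
      have e : P ⁻¹' t = ⋃ i ∈ t, P ⁻¹' {i} := by
        ext x
        simp
      rw [e]
      exact MeasurableSet.biUnion (Set.to_countable t) fun i _ => hP i
    have hAm : MeasurableSet A := tail_le W φ hPle hWm A hA
    obtain ⟨B, hB, hAB⟩ := hZ A hAm (hE X mX μ inferInstance W (fun x => rfl) (fun a b x => rfl)
      hWmp φ hφ ι hι P hP A hA)
    rw [setIntegral_congr_set hAB]
    exact hg0 B hB
  -- replace the functions one by one
  set h : Finset J → J → X → ℂ := fun s j => if j ∈ s then μ[f j | 𝒩] else f j with hh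
  have hhm : ∀ s j, MemLp (h s j) ⊤ μ := by
    intro s j
    simp only [hh]
    split_ifs
    · exact memLp_condExp h𝒩 (hf j)
    · exact hf j
  have hstep : ∀ s : Finset J, ∀ᵐ x ∂μ, Tendsto (fun M : κ → ℕ => (∏ l, (M l : ℂ))⁻¹ *
        ∑ m ∈ Fintype.piFinset (fun l => Finset.range (M l)),
          ((∏ j, f j (W (S j m) x)) - ∏ j, h s j (W (S j m) x))) atTop (𝓝 0) := by
    intro s
    induction s using Finset.induction_on with
    | empty =>
      filter_upwards with x
      simp only [hh, Finset.notMem_empty, if_false, sub_self, Finset.sum_const_zero, mul_zero]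
      exact tendsto_const_nhds
    | insert a s ha ih =>
      have h3 := key (Function.update (h s) a fun x => f a x - (μ[f a | 𝒩]) x) a ?_ ?_
      · filter_upwards [ih, h3] with x hx1 hx2
        have h4 := hx1.add hx2
        rw [add_zero] at h4
        refine h4.congr fun M => ?_
        rw [← mul_add, ← Finset.sum_add_distrib]
        congr 1
        refine Finset.sum_congr rfl fun m _ => ?_
        have e1 : ∏ j, h s j (W (S j m) x) = f a (W (S a m) x) *
            ∏ j ∈ Finset.univ.erase a, h s j (W (S j m) x) := by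
          rw [← Finset.mul_prod_erase Finset.univ _ (Finset.mem_univ a)]
          congr 1
          simp only [hh, if_neg ha]
        have e2 : ∏ j, h (insert a s) j (W (S j m) x) = (μ[f a | 𝒩]) (W (S a m) x) *
            ∏ j ∈ Finset.univ.erase a, h s j (W (S j m) x) := by
          rw [← Finset.mul_prod_erase Finset.univ _ (Finset.mem_univ a)]
          congr 1
          · simp only [hh, if_pos (Finset.mem_insert_self a s)]
          · refine Finset.prod_congr rfl fun j hj => ?_
            have hja := Finset.ne_of_mem_erase hj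
            simp only [hh, Finset.mem_insert, hja, false_or]
        have e3 : ∏ j, Function.update (h s) a (fun x => f a x - (μ[f a | 𝒩]) x) j
            (W (S j m) x) = (f a (W (S a m) x) - (μ[f a | 𝒩]) (W (S a m) x)) *
            ∏ j ∈ Finset.univ.erase a, h s j (W (S j m) x) := by
          rw [← Finset.mul_prod_erase Finset.univ _ (Finset.mem_univ a), Function.update_self]
          congr 1
          refine Finset.prod_congr rfl fun j hj => ?_
          rw [Function.update_of_ne (Finset.ne_of_mem_erase hj)]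
        rw [e1, e2, e3]
        ring
      · intro j
        by_cases hj : j = a
        · subst hj
          rw [Function.update_self]
          exact (hf j).sub (memLp_condExp h𝒩 (hf j))
        · rw [Function.update_of_ne hj]
          exact hhm s j
      · intro B hB
        rw [Function.update_self]
        have i1 : Integrable (f a) μ := (hf a).integrable le_top
        have e : ∫ x in B, (f a x - (μ[f a | 𝒩]) x) ∂μ =
            ∫ x in B, f a x ∂μ - ∫ x in B, (μ[f a | 𝒩]) x ∂μ :=
          integral_sub i1.integrableOn integrable_condExp.integrableOn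
        rw [e, setIntegral_condExp h𝒩 i1 hB, sub_self]
  filter_upwards [hstep Finset.univ] with x hx
  refine hx.congr fun M => ?_
  rw [← mul_sub, sum_Icc_eq, sum_Icc_eq, Finset.sum_sub_distrib]
  congr 1
  have e1 : ∀ (j : J) (m : κ → ℕ), W (S j m) x =
      pw T (fun i => ∑ l, (q j l i).eval (((m + 1) l : ℕ) : ℤ)) x := by
    intro j m
    simp only [hW, hS]
    rw [pact_gw]
    congr 2
  congr 1
  · refine Finset.sum_congr rfl fun m _ => Finset.prod_congr rfl fun j _ => ?_
    rw [e1]
  · refine Finset.sum_congr rfl fun m _ => Finset.prod_congr rfl fun j _ => ?_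
    rw [e1]
    simp only [hh, Finset.mem_univ, if_true]

end Pool.Agent.Lib.Pf720np
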