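import Pool.Agent.Lib.Pf720np.Ent

/-!
# Følner sets in nilpotent groups
-/

set_option autoImplicit false
set_option linter.unusedSectionVars false

open Filter Topology

namespace Pool.Agent.Lib.Pf720np

/-- Extensions. -/
theorem folner_ext {G : Type} [Group G] (N : Subgroup G) [N.Normal] (hN : Folner N)
    (hQ : Folner (G ⧸ N)) : Folner G := by
  classical
  intro K δ hδ
  obtain ⟨B1, hB1, D1, hDB1, hinv1, hD1⟩ :=
    hQ (K.image fun k : G => (k : G ⧸ N)) (δ / 2) (by positivity)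
  set s : G ⧸ N → G := Quotient.out with hs
  have hsq : ∀ q : G ⧸ N, ((s q : G) : G ⧸ N) = q := fun q => QuotientGroup.out_eq' q
  have hmem : ∀ (k : G) (q : G ⧸ N), (s ((k : G ⧸ N) * q))⁻¹ * (k * s q) ∈ N := by
    intro k q
    rw [← QuotientGroup.eq, QuotientGroup.mk_mul, hsq, hsq]
  set n : G → G ⧸ N → N := fun k q => ⟨(s ((k : G ⧸ N) * q))⁻¹ * (k * s q), hmem k q⟩ with hn
  obtain ⟨B2, hB2, D2, hDB2, hinv2, hD2⟩ :=
    hN ((K ×ˢ B1).image fun p => n p.1 p.2) (δ / 2) (by positivity)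
  set ψ : (G ⧸ N) × N → G := fun p => s p.1 * p.2 with hψ
  have hψinj : Function.Injective ψ := by
    rintro ⟨q, a⟩ ⟨q', a'⟩ h
    have h0 : s q * (a : G) = s q' * (a' : G) := h
    have h1 : ((s q * (a : G) : G) : G ⧸ N) = ((s q' * (a' : G) : G) : G ⧸ N) := by rw [h0]
    rw [QuotientGroup.mk_mul, QuotientGroup.mk_mul, hsq, hsq,
      (QuotientGroup.eq_one_iff (a : G)).2 a.2, (QuotientGroup.eq_one_iff (a' : G)).2 a'.2,
      mul_one, mul_one] at h1
    subst h1
    have h2 := mul_left_cancel h0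
    rw [Prod.mk.injEq]
    exact ⟨rfl, Subtype.ext h2⟩
  refine ⟨(B1 ×ˢ B2).image ψ, (hB1.product hB2).image ψ,
    ((B1 ×ˢ B2).filter fun p => p.1 ∈ D1 ∨ p.2 ∈ D2).image ψ,
    Finset.image_subset_image (Finset.filter_subset _ _), ?_, ?_⟩
  · intro b hb hbD k hk
    obtain ⟨⟨q, a⟩, hp, rfl⟩ := Finset.mem_image.1 hb
    rw [Finset.mem_product] at hp
    have h1 : ¬ (q ∈ D1 ∨ a ∈ D2) := by
      intro h
      exact hbD (Finset.mem_image_of_mem ψ (Finset.mem_filter.2 ⟨Finset.mem_product.2 hp, h⟩))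
    rw [not_or] at h1
    refine Finset.mem_image.2 ⟨((k : G ⧸ N) * q, n k q * a), Finset.mem_product.2 ⟨?_, ?_⟩, ?_⟩
    · exact hinv1 q hp.1 h1.1 _ (Finset.mem_image_of_mem _ hk)
    · exact hinv2 a hp.2 h1.2 _ (Finset.mem_image.2 ⟨(k, q), Finset.mem_product.2 ⟨hk, hp.1⟩, rfl⟩)
    · show s ((k : G ⧸ N) * q) * ((s ((k : G ⧸ N) * q))⁻¹ * (k * s q) * (a : G)) =
        k * (s q * (a : G))
      group
  · rw [Finset.card_image_of_injective _ hψinj, Finset.card_image_of_injective _ hψinj,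
      Finset.card_product]
    have h1 : ((B1 ×ˢ B2).filter fun p => p.1 ∈ D1 ∨ p.2 ∈ D2) ⊆ (D1 ×ˢ B2) ∪ (B1 ×ˢ D2) := by
      intro p hp
      rw [Finset.mem_filter, Finset.mem_product] at hp
      rw [Finset.mem_union, Finset.mem_product, Finset.mem_product]
      rcases hp.2 with h | h
      · exact Or.inl ⟨h, hp.1.2⟩
      · exact Or.inr ⟨hp.1.1, h⟩
    have h2 := (Finset.card_le_card h1).trans (Finset.card_union_le _ _)
    rw [Finset.card_product, Finset.card_product] at h2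
    have h3 : ((((B1 ×ˢ B2).filter fun p => p.1 ∈ D1 ∨ p.2 ∈ D2).card : ℕ) : ℝ) ≤
        D1.card * B2.card + B1.card * D2.card := by exact_mod_cast h2
    refine h3.trans ?_
    have h4 : (D1.card : ℝ) * B2.card ≤ δ / 2 * B1.card * B2.card :=
      mul_le_mul_of_nonneg_right hD1 (Nat.cast_nonneg _)
    have h5 : (B1.card : ℝ) * D2.card ≤ B1.card * (δ / 2 * B2.card) :=
      mul_le_mul_of_nonneg_left hD2 (Nat.cast_nonneg _)
    push_cast
    linarith

/-- a polynomially bounded sequence has small relative steps -/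
lemma exists_small_step (a : ℕ → ℕ) (ha1 : 1 ≤ a 1) (d : ℕ) (ha : ∀ n, a n ≤ n ^ d) (δ : ℝ)
    (hδ : 0 < δ) : ∃ n, 1 ≤ n ∧ (a (n + 1) : ℝ) ≤ (1 + δ) * a n := by
  by_contra hcon
  push Not at hcon
  have h1 : ∀ n : ℕ, (1 + δ) ^ n ≤ a (n + 1) := by
    intro n
    induction n with
    | zero => simpa using ha1
    | succ n ih =>
      have h2 := hcon (n + 1) (by omega)
      rw [pow_succ]
      nlinarith
  have h2 := tendsto_pow_const_div_const_pow_of_one_lt d (show 1 < 1 + δ by linarith)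
  have h3 : (0 : ℝ) < 1 / (1 + δ) := by positivity
  obtain ⟨N, hN⟩ := eventually_atTop.1 ((tendsto_order.1 h2).2 _ h3)
  have h4 := hN (N + 1) (by omega)
  rw [div_lt_div_iff₀ (by positivity) (by positivity), one_mul] at h4
  have h5 : ((a (N + 1) : ℕ) : ℝ) ≤ ((N + 1 : ℕ) : ℝ) ^ d := by exact_mod_cast ha (N + 1)
  have h6 := h1 N
  rw [pow_succ] at h4
  have h7 : (1 + δ) ^ N * (1 + δ) ≤ ((N + 1 : ℕ) : ℝ) ^ d * (1 + δ) :=
    mul_le_mul_of_nonneg_right (h6.trans h5) (by linarith)
  linarith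

/-- Commutative groups. -/
theorem folner_comm (G : Type) [Group G] (hc : ∀ a b : G, a * b = b * a) : Folner G := by
  classical
  let _ : CommGroup G := { ‹Group G› with mul_comm := hc }
  intro K δ hδ
  set ψ : (K → ℕ) → G := fun f => ∏ k : K, (k : G) ^ f k with hψ
  set B : ℕ → Finset G := fun n => (Fintype.piFinset fun _ : K => Finset.range n).image ψ with hB
  have hmem : ∀ n g, g ∈ B n ↔ ∃ f : K → ℕ, (∀ k, f k < n) ∧ ψ f = g := by
    intro n g
    rw [hB, Finset.mem_image]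
    simp only [Fintype.mem_piFinset, Finset.mem_range]
  have hcard : ∀ n, (B n).card ≤ n ^ Fintype.card K := by
    intro n
    refine Finset.card_image_le.trans ?_
    rw [Fintype.card_piFinset]
    simp
  have hmono : ∀ n, B n ⊆ B (n + 1) := by
    intro n g hg
    rw [hmem] at hg ⊢
    obtain ⟨f, hf, rfl⟩ := hg
    exact ⟨f, fun k => (hf k).trans (Nat.lt_succ_self n), rfl⟩
  have hmul : ∀ n, ∀ k ∈ K, ∀ g ∈ B n, k * g ∈ B (n + 1) := by
    intro n k hk g hg
    rw [hmem] at hg ⊢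
    obtain ⟨f, hf, rfl⟩ := hg
    refine ⟨fun j => f j + if j = ⟨k, hk⟩ then 1 else 0, ?_, ?_⟩
    · intro j
      have := hf j
      show (f j + if j = ⟨k, hk⟩ then 1 else 0) < n + 1
      split_ifs <;> omega
    · show ∏ j : K, (j : G) ^ (f j + if j = ⟨k, hk⟩ then 1 else 0) = k * ∏ j : K, (j : G) ^ f j
      have h1 : ∀ j : K, (j : G) ^ (f j + if j = ⟨k, hk⟩ then 1 else 0) =
          (j : G) ^ f j * (if j = ⟨k, hk⟩ then (j : G) else 1) := by
        intro j
        rw [pow_add]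
        split_ifs <;> simp
      rw [Finset.prod_congr rfl fun j _ => h1 j, Finset.prod_mul_distrib, Finset.prod_ite_eq',
        if_pos (Finset.mem_univ _), mul_comm]
  have hne : ∀ n, 1 ≤ n → (B n).Nonempty := by
    intro n hn
    refine ⟨ψ 0, (hmem n _).2 ⟨0, fun k => ?_, rfl⟩⟩
    show 0 < n
    omega
  obtain ⟨n, hn1, hn⟩ := exists_small_step (fun n => (B n).card) (hne 1 le_rfl).card_pos
    (Fintype.card K) hcard (δ / (K.card + 1)) (by positivity)
  refine ⟨B n, hne n hn1, (B n).filter fun b => ∃ k ∈ K, k * b ∉ B n, Finset.filter_subset _ _,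
    ?_, ?_⟩
  · intro b hb hbD k hk
    by_contra h
    exact hbD (Finset.mem_filter.2 ⟨hb, k, hk, h⟩)
  · have h1 : ((B n).filter fun b => ∃ k ∈ K, k * b ∉ B n) ⊆
        K.biUnion fun k => (B (n + 1) \ B n).image fun c => k⁻¹ * c := by
      intro b hb
      rw [Finset.mem_filter] at hb
      obtain ⟨hb1, k, hk, hkb⟩ := hb
      rw [Finset.mem_biUnion]
      refine ⟨k, hk, Finset.mem_image.2 ⟨k * b, Finset.mem_sdiff.2 ⟨hmul n k hk b hb1, hkb⟩, ?_⟩⟩
      rw [inv_mul_cancel_left]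
    have h2 : ((B n).filter fun b => ∃ k ∈ K, k * b ∉ B n).card ≤
        K.card * (B (n + 1) \ B n).card := by
      refine (Finset.card_le_card h1).trans (Finset.card_biUnion_le.trans ?_)
      refine (Finset.sum_le_sum fun k _ => Finset.card_image_le).trans ?_
      rw [Finset.sum_const, smul_eq_mul]
    have h3 : ((B (n + 1) \ B n).card : ℝ) = (B (n + 1)).card - (B n).card := by
      rw [Finset.card_sdiff_of_subset (hmono n), Nat.cast_sub (Finset.card_le_card (hmono n))]
    have h4 : ((B (n + 1) \ B n).card : ℝ) ≤ δ / (K.card + 1) * (B n).card := by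
      rw [h3]
      linarith
    have h5 : (((B n).filter fun b => ∃ k ∈ K, k * b ∉ B n).card : ℝ) ≤
        K.card * (B (n + 1) \ B n).card := by exact_mod_cast h2
    refine h5.trans ?_
    have h6 : (K.card : ℝ) * (B (n + 1) \ B n).card ≤ K.card * (δ / (K.card + 1) * (B n).card) :=
      mul_le_mul_of_nonneg_left h4 (Nat.cast_nonneg _)
    refine h6.trans ?_
    have h7 : (K.card : ℝ) * (δ / (K.card + 1) * (B n).card) =
        (K.card / (K.card + 1)) * (δ * (B n).card) := by ring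
    rw [h7]
    have h8 : (K.card : ℝ) / (K.card + 1) ≤ 1 := by
      rw [div_le_one (by positivity)]
      linarith
    calc (K.card : ℝ) / (K.card + 1) * (δ * (B n).card) ≤ 1 * (δ * (B n).card) :=
        mul_le_mul_of_nonneg_right h8 (by positivity)
      _ = _ := one_mul _

/-- Nilpotent groups. -/
theorem folner_of_nilpotent (G : Type) [Group G] [Group.IsNilpotent G] : Folner G := by
  refine Group.nilpotent_center_quotient_ind
    (P := fun (G : Type) [Group G] [Group.IsNilpotent G] => Folner G) G ?_ ?_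
  · intro G _ _
    exact folner_comm G fun a b => Subsingleton.elim _ _
  · intro G _ _ ih
    refine folner_ext (Subgroup.center G) (folner_comm _ ?_) ih
    rintro ⟨a, ha⟩ ⟨b, hb⟩
    exact Subtype.ext ((Subgroup.mem_center_iff.1 hb a))

theorem tailZero_of_nilpotent (G : Type) [Group G] [Countable G] [Group.IsNilpotent G] :
    TailZero G := tailZero_of_folner G (folner_of_nilpotent G)

end Pool.Agent.Lib.Pf720np
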