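import Pool.Agent.Lib.Pf720np.Base
import Pool.Agent.Lib.Pf720ae.Rel

/-!
# From delayed martingale differences to all bounded functions
-/

set_option autoImplicit false
set_option linter.unusedSectionVars false

open Finset MeasureTheory Filter Topology
open scoped ENNReal

namespace Pool.Agent.Lib.Pf720np

open Pool.Agent.Lib.Pf720ae
open Pool.Agent.Lib.Pf720pi (past tail past_mono past_le tail_le tail_le_past comap_le_past
  exists_tail_limit)
open Pool.Agent.Lib.Pf720pp.CoreAux (LineBd)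

variable {κ : Type} [Fintype κ] [DecidableEq κ] {J : Type} [Fintype J] [DecidableEq J]

lemma exists_fin_approx {X : Type} {mX : MeasurableSpace X} {f : X → ℝ} (hf : Measurable f)
    (hf1 : ∀ x, |f x| ≤ 1) : ∃ θ : ℕ → X → ℝ, (∀ i, Measurable (θ i)) ∧ (∀ i x, |θ i x| ≤ 1) ∧
      (∀ i, (Set.range (θ i)).Finite) ∧ ∀ i x, |f x - θ i x| ≤ 1 / ((i : ℝ) + 1) := by
  set θ : ℕ → X → ℝ := fun i x => (⌊((i : ℝ) + 1) * f x⌋ : ℝ) / ((i : ℝ) + 1) with hθ
  have hpos : ∀ i : ℕ, (0 : ℝ) < (i : ℝ) + 1 := fun i => by positivity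
  have hθm : ∀ i, Measurable (θ i) := by
    intro i
    exact ((measurable_of_countable (fun z : ℤ => (z : ℝ))).comp
      (hf.const_mul _).floor).div_const _
  have hfl : ∀ (i : ℕ) x, -((i : ℤ) + 1) ≤ ⌊((i : ℝ) + 1) * f x⌋ ∧
      ⌊((i : ℝ) + 1) * f x⌋ ≤ (i : ℤ) + 1 := by
    intro i x
    have h1 := abs_le.1 (hf1 x)
    have h2 := hpos i
    constructor
    · rw [Int.le_floor]
      push_cast
      nlinarith [h1.1]
    · have : (⌊((i : ℝ) + 1) * f x⌋ : ℝ) ≤ (i : ℝ) + 1 := (Int.floor_le _).trans (by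
        nlinarith [h1.2])
      exact_mod_cast this
  refine ⟨θ, hθm, ?_, ?_, ?_⟩
  · intro i x
    simp only [hθ]
    rw [abs_div, abs_of_pos (hpos i), div_le_one (hpos i), abs_le]
    obtain ⟨h1, h2⟩ := hfl i x
    constructor
    · exact_mod_cast h1
    · exact_mod_cast h2
  · intro i
    refine ((Set.finite_Icc (-((i : ℤ) + 1)) ((i : ℤ) + 1)).image
      fun z : ℤ => (z : ℝ) / ((i : ℝ) + 1)).subset ?_
    rintro _ ⟨x, rfl⟩
    exact ⟨⌊((i : ℝ) + 1) * f x⌋, hfl i x, rfl⟩
  · intro i x
    have h1 := Int.floor_le (((i : ℝ) + 1) * f x)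
    have h2 := Int.lt_floor_add_one (((i : ℝ) + 1) * f x)
    have h3 := hpos i
    have e : f x - θ i x =
        (((i : ℝ) + 1) * f x - ⌊((i : ℝ) + 1) * f x⌋) / ((i : ℝ) + 1) := by
      simp only [hθ]
      field_simp
    rw [e, abs_div, abs_of_pos h3]
    refine div_le_div_of_nonneg_right ?_ h3.le
    rw [abs_le]
    constructor <;> linarith

lemma tendsto_ofReal_sq {u : ℕ → ℝ≥0∞} (c : ℝ)
    (h : ∀ i : ℕ, u i ≤ (ENNReal.ofReal (c * (1 / ((i : ℝ) + 1)))) ^ 2) :
    Tendsto u atTop (𝓝 0) := by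
  have h2 : Tendsto (fun i : ℕ => (ENNReal.ofReal (c * (1 / ((i : ℝ) + 1)))) ^ 2) atTop
      (𝓝 0) := by
    have h4 : Tendsto (fun i : ℕ => c * (1 / ((i : ℝ) + 1))) atTop (𝓝 (c * 0)) :=
      tendsto_one_div_add_atTop_nhds_zero_nat.const_mul c
    rw [mul_zero] at h4
    have h3 : Tendsto (fun i : ℕ => ENNReal.ofReal (c * (1 / ((i : ℝ) + 1)))) atTop
        (𝓝 (ENNReal.ofReal 0)) :=
      (ENNReal.continuous_ofReal.tendsto 0).comp h4
    rw [ENNReal.ofReal_zero] at h3
    have := (ENNReal.continuous_pow 2).tendsto 0 |>.comp h3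
    simpa [Function.comp_def] using this
  exact tendsto_of_tendsto_of_tendsto_of_le_of_le tendsto_const_nhds h2 (fun _ => zero_le) h

/-- the limit of the conditional expectations tested against functions measurable with respect to
all of the σ-algebras -/
lemma limit_pair {X : Type} {F : ℕ → MeasurableSpace X} {mX : MeasurableSpace X} {μ : Measure X}
    [IsProbabilityMeasure μ] (hle : ∀ n, F n ≤ mX) {h f' : X → ℝ} {g : ℕ → X → ℝ}
    (hm : Measurable h) (h1 : ∀ x, |h x| ≤ 1)
    (hgm : ∀ n, Measurable[F n] (g n)) (hg1 : ∀ n x, |g n x| ≤ 1)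
    (hfg : ∀ n, μ[h | F n] =ᵐ[μ] g n) (hf'm : Measurable f') (hf'1 : ∀ x, |f' x| ≤ 1)
    (hlim : Tendsto (fun n => ∫⁻ x, (ENNReal.ofReal |g n x - f' x|) ^ 2 ∂μ) atTop (𝓝 0))
    {y : X → ℝ} (hy : ∀ n, Measurable[F n] y) (hy1 : ∀ x, |y x| ≤ 1) :
    ∫ x, f' x * y x ∂μ = ∫ x, h x * y x ∂μ := by
  have hyX : Measurable y := (hy 0).mono (hle 0) le_rfl
  have hgX : ∀ n, Measurable (g n) := fun n => (hgm n).mono (hle n) le_rfl
  have hbdd : ∀ (z : X → ℝ), Measurable z → (∀ x, |z x| ≤ 1) → Integrable z μ := fun z hz h =>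
    Integrable.of_bound hz.aestronglyMeasurable 1 (Eventually.of_forall fun x => by
      rw [Real.norm_eq_abs]; exact h x)
  have hmul : ∀ a b : ℝ, |a| ≤ 1 → |b| ≤ 1 → |a * b| ≤ 1 := fun a b ha hb => by
    rw [abs_mul]; exact mul_le_one₀ ha (abs_nonneg _) hb
  have hconst : ∀ n, ∫ x, g n x * y x ∂μ = ∫ x, h x * y x ∂μ := by
    intro n
    have hfh : Integrable (fun x => h x * y x) μ :=
      hbdd _ (hm.mul hyX) fun x => hmul _ _ (h1 x) (hy1 x)
    have h3 : μ[fun x => h x * y x | F n] =ᵐ[μ] fun x => (μ[h | F n]) x * y x :=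
      condExp_mul_of_stronglyMeasurable_right ((hy n).stronglyMeasurable) hfh (hbdd _ hm h1)
    rw [← integral_condExp (hle n) (f := fun x => h x * y x)]
    refine integral_congr_ae ?_
    filter_upwards [h3, hfg n] with x hx1 hx2
    rw [hx1, hx2]
  have ht : Tendsto (fun n => ∫ x, g n x * y x ∂μ) atTop (𝓝 (∫ x, f' x * y x ∂μ)) := by
    refine tendsto_integral_of_L1 _ (hbdd _ (hf'm.mul hyX) fun x => hmul _ _ (hf'1 x) (hy1 x)).1
      (Eventually.of_forall fun n => hbdd _ ((hgX n).mul hyX) fun x => hmul _ _ (hg1 n x) (hy1 x))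
      ?_
    have h2 : ∀ n, ∫⁻ x, ‖g n x * y x - f' x * y x‖ₑ ∂μ ≤
        (∫⁻ x, (ENNReal.ofReal |g n x - f' x|) ^ 2 ∂μ) ^ (1 / 2 : ℝ) := by
      intro n
      have h3 : (∫⁻ x, ENNReal.ofReal |g n x - f' x| ∂μ) ^ 2 ≤
          ∫⁻ x, (ENNReal.ofReal |g n x - f' x|) ^ 2 ∂μ :=
        sq_lintegral_le μ (continuous_abs.measurable.comp ((hgX n).sub hf'm)).ennreal_ofReal
      have h4 : ∫⁻ x, ‖g n x * y x - f' x * y x‖ₑ ∂μ ≤
          ∫⁻ x, ENNReal.ofReal |g n x - f' x| ∂μ := by
        refine lintegral_mono fun x => ?_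
        rw [Real.enorm_eq_ofReal_abs, ← sub_mul, abs_mul]
        exact ENNReal.ofReal_le_ofReal (mul_le_of_le_one_right (abs_nonneg _) (hy1 x))
      refine h4.trans ?_
      have h5 := ENNReal.rpow_le_rpow h3 (by norm_num : (0 : ℝ) ≤ 1 / 2)
      rw [← ENNReal.rpow_natCast, ← ENNReal.rpow_mul] at h5
      norm_num at h5
      exact h5
    have h6 : Tendsto (fun n => (∫⁻ x, (ENNReal.ofReal |g n x - f' x|) ^ 2 ∂μ) ^ (1 / 2 : ℝ))
        atTop (𝓝 (0 ^ (1 / 2 : ℝ))) := (ENNReal.continuous_rpow_const.tendsto _).comp hlim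
    rw [ENNReal.zero_rpow_of_pos (by norm_num)] at h6
    exact tendsto_of_tendsto_of_tendsto_of_le_of_le tendsto_const_nhds h6 (fun _ => zero_le) h2
  simp_rw [hconst] at ht
  exact (tendsto_nhds_unique ht tendsto_const_nhds)

/-- a function whose integrals over the `m`-measurable sets vanish is orthogonal to the bounded
`m`-measurable functions -/
lemma orth_of_setIntegral {X : Type} {m : MeasurableSpace X} {mX : MeasurableSpace X}
    {μ : Measure X} [IsProbabilityMeasure μ] (hm : m ≤ mX) {F y : X → ℝ} (hF : Measurable F)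
    (hF1 : ∀ x, |F x| ≤ 1) (h0 : ∀ A, MeasurableSet[m] A → ∫ x in A, F x ∂μ = 0)
    (hy : Measurable[m] y) (hy1 : ∀ x, |y x| ≤ 1) : ∫ x, F x * y x ∂μ = 0 := by
  have hyX : Measurable y := hy.mono hm le_rfl
  have hbdd : ∀ (z : X → ℝ), Measurable z → (∀ x, |z x| ≤ 1) → Integrable z μ := fun z hz h =>
    Integrable.of_bound hz.aestronglyMeasurable 1 (Eventually.of_forall fun x => by
      rw [Real.norm_eq_abs]; exact h x)
  have hFi := hbdd F hF hF1
  have h1 : (fun _ : X => (0 : ℝ)) =ᵐ[μ] μ[F | m] := by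
    refine ae_eq_condExp_of_forall_setIntegral_eq hm hFi (fun s _ _ => integrableOn_zero)
      (fun s hs _ => ?_) aestronglyMeasurable_const
    rw [h0 s hs]
    simp
  have hfh : Integrable (fun x => F x * y x) μ :=
    hbdd _ (hF.mul hyX) fun x => by rw [abs_mul]; exact mul_le_one₀ (hF1 x) (abs_nonneg _) (hy1 x)
  have h3 : μ[fun x => F x * y x | m] =ᵐ[μ] fun x => (μ[F | m]) x * y x :=
    condExp_mul_of_stronglyMeasurable_right hy.stronglyMeasurable hfh hFi
  rw [← integral_condExp hm (f := fun x => F x * y x)]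
  have h4 : ∫ x, (μ[fun x => F x * y x | m]) x ∂μ = ∫ _, (0 : ℝ) ∂μ := by
    refine integral_congr_ae ?_
    filter_upwards [h3, h1] with x hx1 hx2
    rw [hx1, ← hx2, zero_mul]
  rw [h4]
  simp

/-- `F` has integral zero over all the remote past sets of the finite partitions -/
def TailNull {G X : Type} {mX : MeasurableSpace X} (μ : Measure X) (W : G → X → X)
    (φ : G → ℝ) (F : X → ℝ) : Prop :=
  ∀ (ι : Type) (_ : Fintype ι) (P : X → ι), (∀ i, MeasurableSet (P ⁻¹' {i})) →
    ∀ A : Set X, MeasurableSet[tail W φ (MeasurableSpace.comap P ⊤)] A → ∫ x in A, F x ∂μ = 0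

/-- the other functions have finite range -/
theorem nul_fin [Nonempty κ] {G X : Type} [Group G]
    {mX : MeasurableSpace X} {μ : Measure X}
    [IsProbabilityMeasure μ] (W : G → X → X)
    (hW0 : ∀ x, W 1 x = x)
    (hWmul : ∀ a b x, W (a * b) x = W a (W b x)) (hWmp : ∀ a, MeasurePreserving (W a) μ μ)
    (φ : G → ℝ) (hφ : ∀ a b, φ (a * b) = φ a + φ b)
    (S : J → (κ → ℕ) → G) (hMax : ∀ j, MaxBd μ fun m x => W (S j m) x)
    (j₀ : J) (hS : Expo φ S j₀)
    (F : J → X → ℝ) (hFm : ∀ j, Measurable (F j)) (hF1 : ∀ j x, |F j x| ≤ 1)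
    (hfin : ∀ j, j ≠ j₀ → (Set.range (F j)).Finite)
    (hN : TailNull μ W φ (F j₀)) :
    Nul μ (fun j m x => W (S j m) x) F := by
  classical
  have hWm : ∀ a, Measurable (W a) := fun a => (hWmp a).measurable
  obtain ⟨θ, hθm, hθ1, hθfin, hθd⟩ := exists_fin_approx (hFm j₀) (hF1 j₀)
  -- the approximations
  have key : ∀ i : ℕ, ∃ k : X → ℝ, Measurable k ∧ (∫ x, (k x) ^ 2 ∂μ ≤ (1 / ((i : ℝ) + 1)) ^ 2) ∧
      (∀ x, |k x| ≤ 1) ∧
      Nul μ (fun j m x => W (S j m) x) (Function.update F j₀ fun x => θ i x - k x) := by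
    intro i
    have hfin' : ∀ j, Finite (Set.range (Function.update F j₀ (θ i) j)) := by
      intro j
      by_cases hj : j = j₀
      · subst hj
        rw [Function.update_self]
        exact (hθfin i).to_subtype
      · rw [Function.update_of_ne hj]
        exact (hfin j hj).to_subtype
    have hmeas' : ∀ j, Measurable (Function.update F j₀ (θ i) j) := by
      intro j
      by_cases hj : j = j₀
      · subst hj
        rw [Function.update_self]
        exact hθm i
      · rw [Function.update_of_ne hj]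
        exact hFm j
    let _ : ∀ j, Fintype (Set.range (Function.update F j₀ (θ i) j)) := fun j =>
      Fintype.ofFinite _
    set P : X → ((j : J) → Set.range (Function.update F j₀ (θ i) j)) := fun x j =>
      ⟨Function.update F j₀ (θ i) j x, x, rfl⟩ with hPdef
    have hPm : ∀ i, MeasurableSet (P ⁻¹' {i}) := by
      intro i'
      have e : P ⁻¹' {i'} = ⋂ j, (Function.update F j₀ (θ i) j) ⁻¹'
          {((i' j : Set.range (Function.update F j₀ (θ i) j)) : ℝ)} := by
        ext x
        simp only [Set.mem_preimage, Set.mem_singleton_iff, Set.mem_iInter, hPdef]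
        rw [funext_iff]
        exact forall_congr' fun j => Subtype.ext_iff
      rw [e]
      exact MeasurableSet.iInter fun j => hmeas' j (measurableSet_singleton _)
    have hPle : MeasurableSpace.comap P ⊤ ≤ mX := by
      rintro s ⟨t, -, rfl⟩
      have e : P ⁻¹' t = ⋃ i ∈ t, P ⁻¹' {i} := by
        ext x
        simp
      rw [e]
      exact MeasurableSet.biUnion (Set.to_countable t) fun i _ => hPm i
    have hFP : ∀ j, Measurable[MeasurableSpace.comap P ⊤] (Function.update F j₀ (θ i) j) := by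
      intro j t ht
      refine ⟨{i' | ((i' j : Set.range (Function.update F j₀ (θ i) j)) : ℝ) ∈ t}, trivial, ?_⟩
      ext x
      simp [hPdef]
    have hθP : Measurable[MeasurableSpace.comap P ⊤] (θ i) := by
      have := hFP j₀
      rwa [Function.update_self] at this
    have hanti : Antitone fun n : ℕ => past W φ (MeasurableSpace.comap P ⊤) (-(n : ℝ)) :=
      fun m n hmn => past_mono W φ _ (by
        have : (m : ℝ) ≤ n := by exact_mod_cast hmn
        linarith)
    have hple : ∀ t, past W φ (MeasurableSpace.comap P ⊤) t ≤ mX := past_le W φ hPle hWm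
    obtain ⟨g, f', hgm, hg1, hfg, hf'm, hf'1, hlim⟩ := exists_tail_limit (μ := μ)
      (F := fun n : ℕ => past W φ (MeasurableSpace.comap P ⊤) (-(n : ℝ)))
      hanti (fun n => hple _) (θ i) (hθm i) (hθ1 i)
    have htle : tail W φ (MeasurableSpace.comap P ⊤) ≤ mX := tail_le W φ hPle hWm
    have hf'X : Measurable f' := hf'm.mono htle le_rfl
    have hgX : ∀ n, Measurable (g n) := fun n => (hgm n).mono (hple _) le_rfl
    refine ⟨f', hf'X, ?_, hf'1, ?_⟩
    · -- the mean square
      have e1 : ∫ x, f' x * f' x ∂μ = ∫ x, θ i x * f' x ∂μ :=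
        limit_pair (fun n => hple _) (hθm i) (hθ1 i) hgm hg1 hfg hf'X hf'1 hlim
          (fun n => hf'm.mono (iInf_le _ n) le_rfl) hf'1
      have e2 : ∫ x, F j₀ x * f' x ∂μ = 0 :=
        orth_of_setIntegral htle (hFm j₀) (hF1 j₀) (fun A hA => hN _ inferInstance P hPm A hA) hf'm hf'1
      have hbdd : ∀ (z : X → ℝ), Measurable z → (∀ x, |z x| ≤ 4) → Integrable z μ :=
        fun z hz h => Integrable.of_bound hz.aestronglyMeasurable 4
          (Eventually.of_forall fun x => by rw [Real.norm_eq_abs]; exact h x)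
      have hmul : ∀ a b : ℝ, |a| ≤ 1 → |b| ≤ 1 → |a * b| ≤ 4 := fun a b ha hb => by
        rw [abs_mul]; exact (mul_le_one₀ ha (abs_nonneg _) hb).trans (by norm_num)
      have i1 : Integrable (fun x => f' x * f' x) μ :=
        hbdd _ (hf'X.mul hf'X) fun x => hmul _ _ (hf'1 x) (hf'1 x)
      have i2 : Integrable (fun x => θ i x * f' x) μ :=
        hbdd _ ((hθm i).mul hf'X) fun x => hmul _ _ (hθ1 i x) (hf'1 x)
      have i3 : Integrable (fun x => F j₀ x * f' x) μ :=
        hbdd _ ((hFm j₀).mul hf'X) fun x => hmul _ _ (hF1 j₀ x) (hf'1 x)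
      have i4 : Integrable (fun x => (θ i x - F j₀ x) ^ 2) μ := by
        refine hbdd _ (((hθm i).sub (hFm j₀)).pow_const 2) fun x => ?_
        rw [abs_pow]
        have h1 := abs_sub (θ i x) (F j₀ x)
        have h2 := hθ1 i x
        have h3 := hF1 j₀ x
        have h4 : |θ i x - F j₀ x| ≤ 2 := by linarith
        calc |θ i x - F j₀ x| ^ 2 ≤ 2 ^ 2 := pow_le_pow_left₀ (abs_nonneg _) h4 2
          _ = 4 := by norm_num
      have e3 : ∫ x, f' x * f' x ∂μ ≤ ∫ x, (θ i x - F j₀ x) ^ 2 ∂μ := by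
        have h5 : ∫ x, (2 * (θ i x * f' x) - 2 * (F j₀ x * f' x) - f' x * f' x) ∂μ =
            ∫ x, f' x * f' x ∂μ := by
          have a1 := integral_sub (f := fun x => 2 * (θ i x * f' x) - 2 * (F j₀ x * f' x))
            (g := fun x => f' x * f' x) (μ := μ) ((i2.const_mul 2).sub (i3.const_mul 2)) i1
          have a2 := integral_sub (f := fun x => 2 * (θ i x * f' x))
            (g := fun x => 2 * (F j₀ x * f' x)) (μ := μ) (i2.const_mul 2) (i3.const_mul 2)
          have a3 := integral_const_mul (μ := μ) 2 fun x => θ i x * f' x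
          have a4 := integral_const_mul (μ := μ) 2 fun x => F j₀ x * f' x
          rw [a1, a2, a3, a4, e2, ← e1]
          ring
        rw [← h5]
        refine integral_mono (((i2.const_mul 2).sub (i3.const_mul 2)).sub i1) i4 fun x => ?_
        simp only
        nlinarith [sq_nonneg (θ i x - F j₀ x - f' x)]
      have e4 : ∫ x, (θ i x - F j₀ x) ^ 2 ∂μ ≤ (1 / ((i : ℝ) + 1)) ^ 2 := by
        calc ∫ x, (θ i x - F j₀ x) ^ 2 ∂μ ≤ ∫ _, (1 / ((i : ℝ) + 1)) ^ 2 ∂μ := by
              refine integral_mono i4 (integrable_const _) fun x => ?_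
              simp only
              rw [← sq_abs, abs_sub_comm]
              exact pow_le_pow_left₀ (abs_nonneg _) (hθd i x) 2
          _ = _ := by simp
      calc ∫ x, (f' x) ^ 2 ∂μ = ∫ x, f' x * f' x ∂μ := by simp only [sq]
        _ ≤ _ := e3.trans e4
    · -- the averages
      have hupd : ∀ ψ ψ' : X → ℝ, Function.update (Function.update F j₀ ψ) j₀ ψ' =
          Function.update F j₀ ψ' := fun ψ ψ' => Function.update_idem _ _ _
      refine Nul.closure (a := j₀) (hMax j₀) (fun m => hWmp _) (fun j hj x => ?_) ?_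
        (θ := fun n x => 2 * ((θ i x - g n x) / 2)) (fun n => ?_) (fun n => ?_) ?_
      · rw [Function.update_of_ne hj]
        exact hF1 j x
      · rw [Function.update_self]
        exact (hθm i).sub hf'X
      · exact (((hθm i).sub (hgX n)).div_const 2).const_mul 2
      · rw [hupd]
        refine Nul.smul 2 ?_
        have hmd : IsMD μ W φ (MeasurableSpace.comap P ⊤) fun x => (θ i x - g n x) / 2 :=
          ⟨n, θ i, g n, hθP, hθ1 i, hgm n, hg1 n, hfg n, rfl⟩
        refine nul_one hPle W hW0 hWmul hWmp φ hφ S hMax j₀ hS (Finset.univ.erase j₀)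
          (Finset.notMem_erase _ _) _ (by rw [Function.update_self]; exact hmd) ?_ ?_
        · intro j hj
          have hj' := Finset.ne_of_mem_erase hj
          rw [Function.update_of_ne hj']
          refine ⟨?_, hF1 j⟩
          have := hFP j
          rwa [Function.update_of_ne hj'] at this
        · intro j hj
          have hj' : j = j₀ := by
            by_contra h
            exact hj (Finset.mem_erase.2 ⟨h, Finset.mem_univ _⟩)
          subst hj'
          rw [Function.update_self]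
          exact Or.inr hmd
      · rw [Function.update_self]
        refine hlim.congr fun n => lintegral_congr fun x => ?_
        congr 2
        have : θ i x - f' x - 2 * ((θ i x - g n x) / 2) = g n x - f' x := by ring
        rw [this]
  choose k hkm hk2 hk1 hkN using key
  refine Nul.closure (a := j₀) (hMax j₀) (fun m => hWmp _) (fun j _ x => hF1 j x) (hFm j₀)
    (θ := fun i x => θ i x - k i x) (fun i => (hθm i).sub (hkm i)) hkN ?_
  refine tendsto_ofReal_sq 2 fun i => ?_
  have hi : Integrable (fun x => (F j₀ x - (θ i x - k i x)) ^ 2) μ := by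
    refine Integrable.of_bound
      (((hFm j₀).sub ((hθm i).sub (hkm i))).pow_const 2).aestronglyMeasurable 9
      (Eventually.of_forall fun x => ?_)
    rw [Real.norm_eq_abs, abs_pow]
    have h1 := hF1 j₀ x
    have h2 := hθ1 i x
    have h3 := hk1 i x
    have h4 : |F j₀ x - (θ i x - k i x)| ≤ 3 := by
      rw [abs_le] at *
      constructor <;> linarith [h1.1, h1.2, h2.1, h2.2, h3.1, h3.2]
    calc |F j₀ x - (θ i x - k i x)| ^ 2 ≤ 3 ^ 2 := pow_le_pow_left₀ (abs_nonneg _) h4 2
      _ = 9 := by norm_num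
  have hk : Integrable (fun x => (k i x) ^ 2) μ := by
    refine Integrable.of_bound ((hkm i).pow_const 2).aestronglyMeasurable 1
      (Eventually.of_forall fun x => ?_)
    rw [Real.norm_eq_abs, abs_pow]
    exact pow_le_one₀ (abs_nonneg _) (hk1 i x)
  have e1 : ∫⁻ x, (ENNReal.ofReal |F j₀ x - (θ i x - k i x)|) ^ 2 ∂μ =
      ENNReal.ofReal (∫ x, (F j₀ x - (θ i x - k i x)) ^ 2 ∂μ) := by
    rw [ofReal_integral_eq_lintegral_ofReal hi (Eventually.of_forall fun x => sq_nonneg _)]
    refine lintegral_congr fun x => ?_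
    rw [← ENNReal.ofReal_pow (abs_nonneg _), sq_abs]
  rw [e1, ← ENNReal.ofReal_pow (by positivity)]
  refine ENNReal.ofReal_le_ofReal ?_
  have e2 : ∫ x, (F j₀ x - (θ i x - k i x)) ^ 2 ∂μ ≤
      ∫ x, (2 * (1 / ((i : ℝ) + 1)) ^ 2 + 2 * (k i x) ^ 2) ∂μ := by
    refine integral_mono hi ((integrable_const _).add (hk.const_mul 2)) fun x => ?_
    simp only
    have h1 : (F j₀ x - θ i x) ^ 2 ≤ (1 / ((i : ℝ) + 1)) ^ 2 := by
      rw [← sq_abs]
      exact pow_le_pow_left₀ (abs_nonneg _) (hθd i x) 2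
    nlinarith [sq_nonneg (F j₀ x - θ i x - k i x)]
  rw [integral_add (integrable_const _) (hk.const_mul 2), integral_const_mul 2 (fun x => k i x ^ 2)] at e2
  simp only [integral_const, probReal_univ, one_smul] at e2
  have := hk2 i
  calc _ ≤ _ := e2
    _ ≤ 2 * (1 / ((i : ℝ) + 1)) ^ 2 + 2 * (1 / ((i : ℝ) + 1)) ^ 2 := by linarith
    _ = (2 * (1 / ((i : ℝ) + 1))) ^ 2 := by ring

/-- bounded real functions -/
theorem nul_real [Nonempty κ] {G X : Type} [Group G]
    {mX : MeasurableSpace X} {μ : Measure X}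
    [IsProbabilityMeasure μ] (W : G → X → X)
    (hW0 : ∀ x, W 1 x = x)
    (hWmul : ∀ a b x, W (a * b) x = W a (W b x)) (hWmp : ∀ a, MeasurePreserving (W a) μ μ)
    (φ : G → ℝ) (hφ : ∀ a b, φ (a * b) = φ a + φ b)
    (S : J → (κ → ℕ) → G) (hMax : ∀ j, MaxBd μ fun m x => W (S j m) x)
    (j₀ : J) (hS : Expo φ S j₀)
    (F : J → X → ℝ) (hFm : ∀ j, Measurable (F j)) (hF1 : ∀ j x, |F j x| ≤ 1)
    (hN : TailNull μ W φ (F j₀)) :
    Nul μ (fun j m x => W (S j m) x) F := by
  have main : ∀ (s : Finset J), j₀ ∉ s → ∀ F : J → X → ℝ, (∀ j, Measurable (F j)) →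
      (∀ j x, |F j x| ≤ 1) → TailNull μ W φ (F j₀) →
      (∀ j, j ≠ j₀ → j ∉ s → (Set.range (F j)).Finite) →
      Nul μ (fun j m x => W (S j m) x) F := by
    intro s
    induction s using Finset.induction_on with
    | empty =>
      intro _ F hFm hF1 hN hfin
      exact nul_fin W hW0 hWmul hWmp φ hφ S hMax j₀ hS F hFm hF1
        (fun j hj => hfin j hj (Finset.notMem_empty _)) hN
    | insert a s ha ih =>
      intro hs F hFm hF1 hN hfin
      have haj : j₀ ≠ a := fun h => hs (h ▸ Finset.mem_insert_self _ _)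
      obtain ⟨θ, hθm, hθ1, hθfin, hθd⟩ := exists_fin_approx (hFm a) (hF1 a)
      refine Nul.closure (a := a) (hMax a) (fun m => hWmp _) (fun j _ x => hF1 j x) (hFm a)
        (θ := θ) hθm (fun i => ?_) ?_
      · refine ih (fun h => hs (Finset.mem_insert_of_mem h)) _ ?_ ?_ ?_ ?_
        · intro j
          by_cases hja : j = a
          · subst hja; rw [Function.update_self]; exact hθm i
          · rw [Function.update_of_ne hja]; exact hFm j
        · intro j
          by_cases hja : j = a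
          · subst hja; rw [Function.update_self]; exact hθ1 i
          · rw [Function.update_of_ne hja]; exact hF1 j
        · rw [Function.update_of_ne haj]; exact hN
        · intro j hj hjs
          by_cases hja : j = a
          · subst hja; rw [Function.update_self]; exact hθfin i
          · rw [Function.update_of_ne hja]
            exact hfin j hj fun h => (Finset.mem_insert.1 h).elim hja hjs
      · refine tendsto_ofReal_sq 1 fun i => ?_
        calc ∫⁻ x, (ENNReal.ofReal |F a x - θ i x|) ^ 2 ∂μ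
            ≤ ∫⁻ _, (ENNReal.ofReal (1 * (1 / ((i : ℝ) + 1)))) ^ 2 ∂μ := by
              refine lintegral_mono fun x => ?_
              rw [one_mul]
              exact pow_le_pow_left' (ENNReal.ofReal_le_ofReal (hθd i x)) 2
          _ = _ := by simp
  exact main (Finset.univ.erase j₀) (Finset.notMem_erase _ _) F hFm hF1 hN
    (fun j hj hjs => absurd (Finset.mem_erase.2 ⟨hj, Finset.mem_univ _⟩) hjs)

end Pool.Agent.Lib.Pf720np
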