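import Pool.Agent.Lib.Pf720np.Final
import Pool.Agent.Lib.Pf720np.Folner

/-!
# Wrapping: commutators and Følner sets
-/

set_option autoImplicit false

open Finset MeasureTheory Filter Topology
open scoped ENNReal

namespace Pool.Agent.Lib.Pf720np

lemma folner_of {G : Type} [Group G]
    (h : ∀ (K : Finset G) (ε : ℝ), 0 < ε → ∃ B : Finset G, B.Nonempty ∧
      ∀ k ∈ K, ∃ D : Finset G, D ⊆ B ∧ (∀ b ∈ B, b ∉ D → k * b ∈ B) ∧
        (D.card : ℝ) ≤ ε * B.card) : Folner G := by
  classical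
  intro K δ hδ
  obtain ⟨B, hB, h1⟩ := h K (δ / (K.card + 1)) (by positivity)
  choose! D hDB hD1 hD2 using h1
  refine ⟨B, hB, K.biUnion D, Finset.biUnion_subset.2 fun k hk => hDB k hk, ?_, ?_⟩
  · intro b hb hbD k hk
    exact hD1 k hk b hb fun h => hbD (Finset.mem_biUnion.2 ⟨k, hk, h⟩)
  · have h2 : ((K.biUnion D).card : ℝ) ≤ ∑ k ∈ K, ((D k).card : ℝ) := by
      exact_mod_cast Finset.card_biUnion_le
    have h3 : ∑ k ∈ K, ((D k).card : ℝ) ≤ ∑ _k ∈ K, δ / (K.card + 1) * B.card :=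
      Finset.sum_le_sum fun k hk => hD2 k hk
    rw [Finset.sum_const, nsmul_eq_mul] at h3
    have h4 : (K.card : ℝ) * (δ / (K.card + 1) * B.card) =
        (K.card / (K.card + 1)) * (δ * B.card) := by ring
    have h8 : (K.card : ℝ) / (K.card + 1) ≤ 1 := by
      rw [div_le_one (by positivity)]
      linarith
    calc ((K.biUnion D).card : ℝ) ≤ _ := h2.trans h3
      _ = (K.card / (K.card + 1)) * (δ * B.card) := h4
      _ ≤ 1 * (δ * B.card) := mul_le_mul_of_nonneg_right h8 (by positivity)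
      _ = _ := one_mul _

lemma ess_of {P : Type} [Group P] {H : Subgroup P} {g : ℤ → H}
    (h : ∃ a b : ℤ, ∀ r : ℕ, 0 < r →
      (((g a : H) : P)⁻¹ * ((g b : H) : P)) ^ r ∉ ⁅H, H⁆) : Ess g := by
  obtain ⟨a, b, hab⟩ := h
  refine ⟨a, b, fun r hr hmem => hab r hr ?_⟩
  rw [← Subgroup.map_subtype_commutator]
  exact ⟨_, hmem, by simp⟩

theorem countable_closure {P : Type} [Group P] {d : ℕ} (T : Fin d → P) :
    Countable (Subgroup.closure (Set.range T)) := by
  have h1 : Countable (FreeGroup (Fin d)) :=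
    Function.Surjective.countable (f := fun L : List (Fin d × Bool) => FreeGroup.mk L)
      (fun x => Quot.exists_rep x)
  have h2 : Function.Surjective (MonoidHom.rangeRestrict (FreeGroup.lift T)) :=
    MonoidHom.rangeRestrict_surjective _
  have h3 : Countable (FreeGroup.lift T).range := h2.countable
  rwa [FreeGroup.range_lift_eq_closure] at h3

open Pool.Agent.Lib.Pf720ae

lemma sum_Icc_eq' {κ : Type} [Fintype κ] [DecidableEq κ] {β : Type} [AddCommMonoid β]
    (M : κ → ℕ) (G : (κ → ℕ) → β) :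
    ∑ m ∈ Fintype.piFinset (fun l => Finset.Icc 1 (M l)), G m
      = ∑ m ∈ Fintype.piFinset (fun l => Finset.range (M l)), G (m + 1) := by
  symm
  refine Finset.sum_bij' (fun m _ => m + 1) (fun m _ => fun l => m l - 1) ?_ ?_ ?_ ?_ ?_
  · intro m hm
    simp only [Fintype.mem_piFinset, Finset.mem_range, Finset.mem_Icc] at hm ⊢
    intro l
    have := hm l
    simp only [Pi.add_apply, Pi.one_apply]
    omega
  · intro m hm
    simp only [Fintype.mem_piFinset, Finset.mem_range, Finset.mem_Icc] at hm ⊢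
    intro l
    have := hm l
    omega
  · intro m hm
    funext l
    simp
  · intro m hm
    simp only [Fintype.mem_piFinset, Finset.mem_Icc] at hm
    funext l
    have := hm l
    simp only [Pi.add_apply, Pi.one_apply]
    omega
  · intro m hm
    rfl

/-- the maximal inequality in the form of the statement -/
lemma maxBd_of {X : Type} {mX : MeasurableSpace X} {μ : Measure X} {k : ℕ}
    (S : (Fin k → ℕ) → X → X)
    (h : ∃ C : ℝ≥0∞, C ≠ ⊤ ∧ ∀ g : X → ℝ≥0∞, Measurable g →
      ∫⁻ x, (⨆ M : Fin k → ℕ, (∏ l, (M l : ℝ≥0∞))⁻¹ *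
        ∑ m ∈ Fintype.piFinset (fun l => Finset.Icc 1 (M l)), g (S m x)) ^ 2 ∂μ ≤
        C * ∫⁻ x, (g x) ^ 2 ∂μ) :
    MaxBd μ fun m x => S (m + 1) x := by
  obtain ⟨C, hC, h⟩ := h
  refine ⟨C, hC, fun g hg => (lintegral_mono fun x => ?_).trans (h g hg)⟩
  refine pow_le_pow_left' (iSup_le fun M => ?_) 2
  refine le_trans (le_of_eq ?_) (le_iSup _ fun l => M l + 1)
  rw [sum_Icc_eq' (fun l => M l + 1) fun m => g (S m x), boxs_univ]
  push_cast
  rfl

end Pool.Agent.Lib.Pf720np
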