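import Pool.Agent.Lib.Pf720np.Null

/-!
# Delayed martingale differences kill the averages
-/

set_option autoImplicit false
set_option linter.unusedSectionVars false

open Finset MeasureTheory Filter Topology
open scoped ENNReal

namespace Pool.Agent.Lib.Pf720np

open Pool.Agent.Lib.Pf720ae
open Pool.Agent.Lib.Pf720pi (past tail past_mono past_le tail_le tail_le_past comap_le_past
  exists_tail_limit)
open Pool.Agent.Lib.Pf720pp.CoreAux (LineBd)

variable {κ : Type} [Fintype κ] [DecidableEq κ] {J : Type} [Fintype J] [DecidableEq J]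

/-- the data of a delayed martingale difference -/
def IsMD {G X : Type} {mX : MeasurableSpace X} (μ : Measure X) (W : G → X → X)
    (φ : G → ℝ) (mP : MeasurableSpace X) (F : X → ℝ) : Prop :=
  ∃ (p : ℕ) (f g : X → ℝ), Measurable[mP] f ∧ (∀ x, |f x| ≤ 1) ∧
    Measurable[past W φ mP (-(p : ℝ))] g ∧ (∀ x, |g x| ≤ 1) ∧
    μ[f | past W φ mP (-(p : ℝ))] =ᵐ[μ] g ∧ F = fun x => (f x - g x) / 2

lemma IsMD.abs_le {G X : Type} {mX : MeasurableSpace X} {μ : Measure X} {W : G → X → X}
    {φ : G → ℝ} {mP : MeasurableSpace X} {F : X → ℝ} (h : IsMD μ W φ mP F) (x : X) :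
    |F x| ≤ 1 := by
  obtain ⟨p, f, g, -, hf1, -, hg1, -, rfl⟩ := h
  rw [abs_div, abs_of_pos (by norm_num : (0 : ℝ) < 2), div_le_one (by norm_num)]
  have h1 := abs_sub (f x) (g x)
  have h2 := hf1 x
  have h3 := hg1 x
  linarith

/-- the conditions on the exponents: the slot `j₀` depends on every variable, `j` may be
independent of a variable, and any two exponents differ -/
structure Expo {G : Type} (φ : G → ℝ) (S : J → (κ → ℕ) → G) (j₀ : J) : Prop where
  dep : ∀ j l, (∀ p : ℝ, 0 ≤ p → ∃ C, LineBd (fun m => φ (S j m)) l p C) ∨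
    ∀ m t, S j (Function.update m l t) = S j (Function.update m l 0)
  vis : ∀ l, ∀ p : ℝ, 0 ≤ p → ∃ C, LineBd (fun m => φ (S j₀ m)) l p C
  dis : ∀ i j, i ≠ j → ∀ p : ℝ, 0 ≤ p → ∃ (l : κ) (C : ℝ),
    LineBd (fun m => φ (S i m) - φ (S j m)) l p C

theorem base_case [Nonempty κ] {G X : Type} [Group G] {mP : MeasurableSpace X}
    {mX : MeasurableSpace X} {μ : Measure X}
    [IsProbabilityMeasure μ] (hP : mP ≤ mX) (W : G → X → X)
    (hW0 : ∀ x, W 1 x = x)
    (hWmul : ∀ a b x, W (a * b) x = W a (W b x)) (hWmp : ∀ a, MeasurePreserving (W a) μ μ)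
    (φ : G → ℝ) (hφ : ∀ a b, φ (a * b) = φ a + φ b)
    (S : J → (κ → ℕ) → G) (j₀ : J) (hS : Expo φ S j₀)
    (F : J → X → ℝ) (hj₀ : IsMD μ W φ mP (F j₀))
    (hF : ∀ j, (Measurable[tail W φ mP] (F j) ∧ ∀ x, |F j x| ≤ 1) ∨ IsMD μ W φ mP (F j)) :
    Nul μ (fun j m x => W (S j m) x) F := by
  classical
  set md : J → Prop := fun j => IsMD μ W φ mP (F j) with hmdd
  have hWm : ∀ a, Measurable (W a) := fun a => (hWmp a).measurable
  choose p f g hfm hf1 hgm hg1 hfg hFe using fun j : {j // md j} => j.2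
  have hFe' : ∀ (j : {j // md j}) x, F j.1 x = (f j x - g j x) / 2 := fun j x =>
    congrFun (hFe j) x
  obtain ⟨pm, hpm⟩ : ∃ pm : ℕ, ∀ j, p j ≤ pm := ⟨Finset.univ.sup p, fun j =>
    Finset.le_sup (Finset.mem_univ j)⟩
  have hF1 : ∀ j x, |F j x| ≤ 1 := by
    intro j x
    rcases hF j with h | h
    · exact h.2 x
    · exact h.abs_le x
  have htt : ∀ j : {j // ¬ md j}, Measurable[tail W φ mP] (F j.1) := fun j =>
    ((hF j.1).resolve_right j.2).1
  have hcore : ∀ᵐ x ∂μ, Tendsto (fun M : κ → ℕ => avg M fun m =>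
      (∏ j : {j // md j}, F j.1 (W (S j.1 m) x)) *
        ∏ j : {j // ¬ md j}, F j.1 (W (S j.1 m) x)) atTop (𝓝 0) := by
    refine Pf720pp.core_ae (past W φ mP) (past_le W φ hP hWm)
      (fun (j : {j // md j}) m => φ (S j.1 m))
      (fun j l => ∀ p : ℝ, 0 ≤ p → ∃ C, LineBd (fun m => φ (S j.1 m)) l p C) (pm : ℝ)
      (by positivity) ?_ ?_ ?_
      (fun j m x => F j.1 (W (S j.1 m) x)) ?_ ?_ ?_ ?_
      (fun m x => ∏ j : {j // ¬ md j}, F j.1 (W (S j.1 m) x)) ?_ ?_
    · intro i j hij
      exact hS.dis i.1 j.1 (fun h => hij (Subtype.ext h)) pm (by positivity)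
    · intro j l hl
      exact hl pm (by positivity)
    · intro l
      exact ⟨⟨j₀, hj₀⟩, hS.vis l⟩
    · intro j m x
      exact hF1 _ _
    · intro j m s hs
      have h1 := mdiff_meas W hWmul φ hφ (p := (p j : ℝ)) (by positivity) (hfm j) (hgm j)
        (S j.1 m) s hs
      have h2 := h1.div_const 2
      have e : (fun x => F j.1 (W (S j.1 m) x)) = fun x =>
          (f j (W (S j.1 m) x) - g j (W (S j.1 m) x)) / 2 := by
        funext x
        exact hFe' j _
      rw [e]
      exact h2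
    · intro j m h hh hh1
      have hh' : Measurable[past W φ mP (φ (S j.1 m) - (p j : ℝ))] h := by
        refine hh.mono (past_mono W φ mP ?_) le_rfl
        have : (p j : ℝ) ≤ pm := by exact_mod_cast hpm j
        linarith
      have h1 := mdiff_orth hP W hW0 hWmul hWmp φ hφ (p j : ℝ) (hfm j) (hf1 j) (hfg j) (hgm j)
        (hg1 j) (S j.1 m) h hh' hh1
      have e2 : ∀ x, F j.1 (W (S j.1 m) x) * h x = (1 / 2) *
          ((f j (W (S j.1 m) x) - g j (W (S j.1 m) x)) * h x) := by
        intro x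
        rw [hFe' j]
        ring
      simp only [e2]
      rw [integral_const_mul, h1, mul_zero]
    · intro j l hl m t x
      have := (hS.dep j.1 l).resolve_left hl
      rw [this m t]
    · intro m x
      rw [Finset.abs_prod]
      exact Finset.prod_le_one (fun i _ => abs_nonneg _) fun j _ => hF1 _ _
    · intro m s
      exact Finset.measurable_fun_prod _ fun j _ => measurable_tail_comp W hWmul φ hφ (htt j) _ s
  filter_upwards [hcore] with x hx
  refine hx.congr fun M => ?_
  refine avg_congr fun m _ => ?_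
  exact Fintype.prod_subtype_mul_prod_subtype md fun j => F j (W (S j m) x)

/-- functions observed through a fixed σ-algebra -/
theorem nul_one [Nonempty κ] {G X : Type} [Group G] {mP : MeasurableSpace X}
    {mX : MeasurableSpace X} {μ : Measure X}
    [IsProbabilityMeasure μ] (hP : mP ≤ mX) (W : G → X → X)
    (hW0 : ∀ x, W 1 x = x)
    (hWmul : ∀ a b x, W (a * b) x = W a (W b x)) (hWmp : ∀ a, MeasurePreserving (W a) μ μ)
    (φ : G → ℝ) (hφ : ∀ a b, φ (a * b) = φ a + φ b)
    (S : J → (κ → ℕ) → G) (hMax : ∀ j, MaxBd μ fun m x => W (S j m) x)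
    (j₀ : J) (hS : Expo φ S j₀)
    (s : Finset J) (hs : j₀ ∉ s) (F : J → X → ℝ) (hj₀ : IsMD μ W φ mP (F j₀))
    (hFs : ∀ j ∈ s, Measurable[mP] (F j) ∧ ∀ x, |F j x| ≤ 1)
    (hF : ∀ j ∉ s, (Measurable[tail W φ mP] (F j) ∧ ∀ x, |F j x| ≤ 1) ∨ IsMD μ W φ mP (F j)) :
    Nul μ (fun j m x => W (S j m) x) F := by
  have hWm : ∀ a, Measurable (W a) := fun a => (hWmp a).measurable
  induction s using Finset.induction_on generalizing F with
  | empty =>
    exact base_case hP W hW0 hWmul hWmp φ hφ S j₀ hS F hj₀ (fun j => hF j (Finset.notMem_empty j))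
  | insert a s ha ih =>
    have haj : j₀ ≠ a := fun h => hs (h ▸ Finset.mem_insert_self _ _)
    have hs' : j₀ ∉ s := fun h => hs (Finset.mem_insert_of_mem h)
    obtain ⟨hFam, hFa1⟩ := hFs a (Finset.mem_insert_self _ _)
    have hF1 : ∀ j x, |F j x| ≤ 1 := by
      intro j x
      by_cases hj : j ∈ insert a s
      · exact (hFs j hj).2 x
      · rcases hF j hj with h | h
        · exact h.2 x
        · exact h.abs_le x
    have hFaX : Measurable (F a) := hFam.mono hP le_rfl
    obtain ⟨g, f', hgm, hg1, hfg, hf'm, hf'1, hlim⟩ := exists_tail_limit (μ := μ)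
      (F := fun n : ℕ => past W φ mP (-(n : ℝ)))
      (fun m n hmn => past_mono W φ mP (by
        have : (m : ℝ) ≤ n := by exact_mod_cast hmn
        linarith)) (fun n => past_le W φ hP hWm _) (F a) hFaX hFa1
    have hrest : ∀ (θ : X → ℝ), ((Measurable[tail W φ mP] θ ∧ ∀ x, |θ x| ≤ 1) ∨ IsMD μ W φ mP θ) →
        Nul μ (fun j m x => W (S j m) x) (Function.update F a θ) := by
      intro θ hθ
      refine ih hs' (Function.update F a θ) ?_ ?_ ?_
      · rw [Function.update_of_ne haj]
        exact hj₀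
      · intro j hj
        have hja : j ≠ a := fun h => ha (h ▸ hj)
        rw [Function.update_of_ne hja]
        exact hFs j (Finset.mem_insert_of_mem hj)
      · intro j hj
        by_cases hja : j = a
        · subst hja
          rw [Function.update_self]
          exact hθ
        · rw [Function.update_of_ne hja]
          exact hF j fun h => (Finset.mem_insert.1 h).elim hja hj
    have hgX : ∀ n, Measurable (g n) := fun n => (hgm n).mono (past_le W φ hP hWm _) le_rfl
    have hf'X : Measurable f' := hf'm.mono (tail_le W φ hP hWm) le_rfl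
    refine Nul.closure (a := a) (hMax a) (fun m => hWmp _) (fun j _ x => hF1 j x) hFaX
      (θ := fun i x => 2 * ((F a x - g i x) / 2) + f' x) (fun i => ?_) (fun i => ?_) ?_
    · exact (((hFaX.sub (hgX i)).div_const 2).const_mul 2).add hf'X
    · refine Nul.add (Nul.smul 2 (hrest _ (Or.inr ?_))) (hrest _ (Or.inl ⟨hf'm, hf'1⟩))
      exact ⟨i, F a, g i, hFam, hFa1, hgm i, hg1 i, hfg i, rfl⟩
    · refine hlim.congr fun i => lintegral_congr fun x => ?_
      congr 3
      ring

end Pool.Agent.Lib.Pf720np
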