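import Pool.Agent.Lib.Pf720np.Closure
import Pool.Agent.Lib.Pf720ae.Lift

/-!
# Complex bounded functions
-/

set_option autoImplicit false
set_option linter.unusedSectionVars false

open Finset MeasureTheory Filter Topology
open scoped ENNReal

namespace Pool.Agent.Lib.Pf720np

open Pool.Agent.Lib.Pf720ae
open Pool.Agent.Lib.Pf720pi (past tail past_mono past_le tail_le tail_le_past comap_le_past
  exists_tail_limit)

variable {κ : Type} [Fintype κ] [DecidableEq κ] {J : Type} [Fintype J] [DecidableEq J]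

/-- representation of a complex essentially bounded function, with a positive constant -/
lemma exists_rep_pos {X : Type} {mX : MeasurableSpace X} {μ : Measure X} [IsProbabilityMeasure μ]
    {f : X → ℂ} (hf : MemLp f ⊤ μ) :
    ∃ (C : ℝ) (F : Fin 2 → X → ℝ), 0 < C ∧ (∀ i, Measurable (F i)) ∧ (∀ i x, |F i x| ≤ 1) ∧
      ∀ᵐ x ∂μ, f x = (C : ℂ) * ((F 0 x : ℂ) + (F 1 x : ℂ) * Complex.I) := by
  obtain ⟨C₀, hC₀⟩ : ∃ C₀ : ℝ, ∀ᵐ x ∂μ, ‖f x‖ ≤ C₀ := by
    have hlt : eLpNormEssSup f μ < ∞ := by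
      have := hf.2
      rwa [eLpNorm_exponent_top] at this
    refine ⟨(eLpNormEssSup f μ).toReal, ?_⟩
    filter_upwards [enorm_ae_le_eLpNormEssSup f μ] with x hx
    have h1 := ENNReal.toReal_mono hlt.ne hx
    rwa [toReal_enorm] at h1
  set C : ℝ := max C₀ 1 with hC
  have hCpos : 0 < C := lt_of_lt_of_le one_pos (le_max_right _ _)
  set g := hf.1.mk f with hg
  have hgm : Measurable g := hf.1.stronglyMeasurable_mk.measurable
  have hgf := hf.1.ae_eq_mk
  set cl : ℝ → ℝ := fun t => max (-1) (min (t / C) 1) with hcl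
  have hclm : Measurable cl :=
    measurable_const.max ((measurable_id.div_const C).min measurable_const)
  have hcl1 : ∀ t, |cl t| ≤ 1 := by
    intro t
    rw [abs_le]
    exact ⟨le_max_left _ _, max_le (by norm_num) (min_le_right _ _)⟩
  have hcl2 : ∀ t, |t| ≤ C → C * cl t = t := by
    intro t ht
    have h1 := abs_le.1 ht
    have h2 : t / C ≤ 1 := (div_le_one hCpos).2 h1.2
    have h3 : -1 ≤ t / C := by rw [le_div_iff₀ hCpos]; linarith [h1.1]
    simp only [hcl]
    rw [min_eq_left h2, max_eq_right h3]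
    field_simp
  refine ⟨C, ![fun x => cl (g x).re, fun x => cl (g x).im], hCpos, ?_, ?_, ?_⟩
  · intro i
    fin_cases i
    · exact hclm.comp (Complex.measurable_re.comp hgm)
    · exact hclm.comp (Complex.measurable_im.comp hgm)
  · intro i x
    fin_cases i
    · exact hcl1 _
    · exact hcl1 _
  · filter_upwards [hC₀, hgf] with x hx hx2
    have h0 : ‖f x‖ ≤ C := hx.trans (le_max_left _ _)
    rw [hx2] at h0 ⊢
    have hre : |(g x).re| ≤ C := (Complex.abs_re_le_norm _).trans h0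
    have him : |(g x).im| ≤ C := (Complex.abs_im_le_norm _).trans h0
    have e1 := hcl2 _ hre
    have e2 := hcl2 _ him
    show g x = (C : ℂ) * ((cl (g x).re : ℂ) + (cl (g x).im : ℂ) * Complex.I)
    rw [mul_add, ← mul_assoc, ← Complex.ofReal_mul, ← Complex.ofReal_mul, e1, e2]
    exact (Complex.re_add_im _).symm

lemma setIntegral_rep {X : Type} {mX : MeasurableSpace X} {μ : Measure X}
    [IsProbabilityMeasure μ] {f : X → ℂ} {C : ℝ} {F : Fin 2 → X → ℝ} (hC : 0 < C)
    (hFm : ∀ i, Measurable (F i)) (hF1 : ∀ i x, |F i x| ≤ 1)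
    (hfe : ∀ᵐ x ∂μ, f x = (C : ℂ) * ((F 0 x : ℂ) + (F 1 x : ℂ) * Complex.I)) {A : Set X}
    (h0 : ∫ x in A, f x ∂μ = 0) (i : Fin 2) : ∫ x in A, F i x ∂μ = 0 := by
  have hI : ∀ i, Integrable (F i) (μ.restrict A) := fun i =>
    Integrable.of_bound (hFm i).aestronglyMeasurable 1 (Eventually.of_forall fun x => by
      rw [Real.norm_eq_abs]; exact hF1 i x)
  have h1 : ∫ x in A, f x ∂μ =
      (C : ℂ) * (((∫ x in A, F 0 x ∂μ : ℝ) : ℂ) + ((∫ x in A, F 1 x ∂μ : ℝ) : ℂ) * Complex.I) := by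
    rw [integral_congr_ae (ae_restrict_of_ae hfe), integral_const_mul,
      integral_add (hI 0).ofReal ((hI 1).ofReal.mul_const _), integral_mul_const,
      integral_complex_ofReal, integral_complex_ofReal]
  rw [h1] at h0
  have hC' : (C : ℂ) ≠ 0 := by exact_mod_cast hC.ne'
  have h2 := (mul_eq_zero.1 h0).resolve_left hC'
  have hre := congrArg Complex.re h2
  have him := congrArg Complex.im h2
  simp at hre him
  fin_cases i
  · exact hre
  · exact him

/-- bounded complex functions -/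
theorem nul_complex [Nonempty κ] {G X : Type} [Group G]
    {mX : MeasurableSpace X} {μ : Measure X}
    [IsProbabilityMeasure μ] (W : G → X → X)
    (hW0 : ∀ x, W 1 x = x)
    (hWmul : ∀ a b x, W (a * b) x = W a (W b x)) (hWmp : ∀ a, MeasurePreserving (W a) μ μ)
    (φ : G → ℝ) (hφ : ∀ a b, φ (a * b) = φ a + φ b)
    (S : J → (κ → ℕ) → G) (hMax : ∀ j, MaxBd μ fun m x => W (S j m) x)
    (j₀ : J) (hS : Expo φ S j₀)
    (f : J → X → ℂ) (hf : ∀ j, MemLp (f j) ⊤ μ)
    (hN : ∀ (ι : Type) (_ : Fintype ι) (P : X → ι), (∀ i, MeasurableSet (P ⁻¹' {i})) →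
      ∀ A : Set X, MeasurableSet[tail W φ (MeasurableSpace.comap P ⊤)] A →
        ∫ x in A, f j₀ x ∂μ = 0) :
    ∀ᵐ x ∂μ, Tendsto (fun M : κ → ℕ => (∏ l, (M l : ℂ))⁻¹ *
      ∑ m ∈ Fintype.piFinset (fun l => Finset.range (M l)), ∏ j, f j (W (S j m) x))
      atTop (𝓝 0) := by
  choose C F hCp hFm hF1 hFe using fun j => exists_rep_pos (hf j)
  have hall : ∀ᵐ x ∂μ, ∀ e : J → Fin 2, Tendsto (fun M : κ → ℕ =>
      avg M fun m => ∏ j, F j (e j) (W (S j m) x)) atTop (𝓝 0) := by
    refine ae_all_iff.2 fun e => ?_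
    refine nul_real W hW0 hWmul hWmp φ hφ S hMax j₀ hS (fun j => F j (e j)) (fun j => hFm j _)
      (fun j => hF1 j _) ?_
    intro ι hι P hP A hA
    exact setIntegral_rep (hCp j₀) (hFm j₀) (hF1 j₀) (hFe j₀) (hN ι hι P hP A hA) _
  have hrep : ∀ᵐ x ∂μ, ∀ j m, f j (W (S j m) x)
      = (C j : ℂ) * ((F j 0 (W (S j m) x) : ℂ) + (F j 1 (W (S j m) x) : ℂ) * Complex.I) := by
    simp only [ae_all_iff]
    exact fun j m => (hWmp (S j m)).quasiMeasurePreserving.ae (hFe j)
  filter_upwards [hall, hrep] with x hL hr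
  set w : J → Fin 2 → ℂ := fun j i => (C j : ℂ) * ![1, Complex.I] i with hw
  have hprod : ∀ m, ∏ j, f j (W (S j m) x)
      = ∑ e : J → Fin 2, (∏ j, w j (e j)) * ((∏ j, F j (e j) (W (S j m) x) : ℝ) : ℂ) := by
    intro m
    have h1 : ∀ j, f j (W (S j m) x) = ∑ i : Fin 2, w j i * (F j i (W (S j m) x) : ℂ) := by
      intro j
      rw [hr j m, Fin.sum_univ_two]
      simp only [hw, Matrix.cons_val_zero, Matrix.cons_val_one]
      ring
    simp_rw [h1]
    rw [Finset.prod_univ_sum]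
    simp only [Finset.prod_mul_distrib, Complex.ofReal_prod, Fintype.piFinset_univ]
  have h2 : ∀ e : J → Fin 2, Tendsto (fun M : κ → ℕ => (∏ j, w j (e j)) *
      ((avg M fun m => ∏ j, F j (e j) (W (S j m) x) : ℝ) : ℂ)) atTop (𝓝 0) := by
    intro e
    have h := ((Complex.continuous_ofReal.tendsto _).comp (hL e)).const_mul (∏ j, w j (e j))
    simpa using h
  have h3 := tendsto_finsetSum (Finset.univ : Finset (J → Fin 2)) fun e _ => h2 e
  simp only [Finset.sum_const_zero] at h3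
  refine h3.congr fun M => ?_
  simp only [hprod]
  rw [Finset.sum_comm, Finset.mul_sum]
  refine Finset.sum_congr rfl fun e _ => ?_
  unfold avg Pool.Agent.Lib.Pf720ae.box
  push_cast
  rw [Finset.mul_sum, Finset.mul_sum, Finset.mul_sum]
  refine Finset.sum_congr rfl fun m _ => ?_
  ring

end Pool.Agent.Lib.Pf720np
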