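import Pool.Agent.Lib.Pf720pi.Defs

/-!
# Zero entropy for actions of a group
-/

set_option autoImplicit false
set_option linter.unusedSectionVars false

open MeasureTheory Filter Topology
open scoped ENNReal

namespace Pool.Agent.Lib.Pf720np

open Pool.Agent.Lib.Pf720pi (past tail)

/-- Shannon entropy of the join of the partitions `g⁻¹ {A, Aᶜ}`, `g ∈ F` -/
noncomputable def joinEntropy {G X : Type} {mX : MeasurableSpace X} (μ : Measure X)
    (W : G → X → X) (A : Set X) (F : Finset G) : ℝ :=
  ∑ ω ∈ F.powerset, Real.negMulLog (μ.real {x | ∀ g ∈ F, W g x ∈ A ↔ g ∈ ω})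

/-- `A` has zero entropy: `inf_F H(⋁_{g ∈ F} g⁻¹ {A, Aᶜ}) / |F| = 0` over the finite nonempty
subsets `F` of the group -/
def ZeroEnt {G X : Type} {mX : MeasurableSpace X} (μ : Measure X) (W : G → X → X)
    (A : Set X) : Prop :=
  ∀ ε : ℝ, 0 < ε → ∃ F : Finset G, F.Nonempty ∧ joinEntropy μ W A F ≤ ε * F.card

/-- interface of part (E): remote pasts of finite partitions have zero entropy.
`φ` is an arbitrary homomorphism to the reals (not necessarily injective) -/
def TailZero (G : Type) [Group G] : Prop :=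
  ∀ (X : Type) (_ : MeasurableSpace X) (μ : Measure X), IsProbabilityMeasure μ →
    ∀ W : G → X → X, (∀ x, W 1 x = x) → (∀ a b x, W (a * b) x = W a (W b x)) →
      (∀ a, MeasurePreserving (W a) μ μ) →
      ∀ φ : G → ℝ, (∀ a b, φ (a * b) = φ a + φ b) →
        ∀ (ι : Type) (_ : Fintype ι) (P : X → ι), (∀ i, MeasurableSet (P ⁻¹' {i})) →
          ∀ A : Set X, MeasurableSet[tail W φ (MeasurableSpace.comap P ⊤)] A → ZeroEnt μ W A

end Pool.Agent.Lib.Pf720np
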