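import Pool.Agent.Lib.Pf720np.Defs
import Pool.Agent.Lib.Pf720pi.EntTail

/-!
# Remote pasts of finite partitions have zero entropy (groups with Følner sets)
-/

set_option autoImplicit false
set_option linter.unusedSectionVars false

open MeasureTheory Filter Topology
open scoped ENNReal

namespace Pool.Agent.Lib.Pf720np

open Pool.Agent.Lib.Pf720pi (past tail cH cH_nonneg cH_le_card cH_bot cH_anti cH_pair
  cH_comp_injective cH_eq_zero cH_comap tendsto_cH comap_top_le measurableSet_preimage_of_comap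
  tail_le_past tail_le past_le comap_le_past past_mono)

/-- every finite set has almost invariant finite sets (left multiplication) -/
def Folner (G : Type) [Group G] : Prop :=
  ∀ (K : Finset G) (δ : ℝ), 0 < δ → ∃ B : Finset G, B.Nonempty ∧
    ∃ D : Finset G, D ⊆ B ∧ (∀ b ∈ B, b ∉ D → ∀ k ∈ K, k * b ∈ B) ∧ (D.card : ℝ) ≤ δ * B.card

section Joint

variable {X ι G : Type}

/-- joint variable of the members `g ∈ S` of a family of maps -/
def JS (Z : G → X → ι) (S : Finset G) (x : X) : S → ι := fun g => Z g.1 x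

/-- the σ-algebra generated by the members `g ∈ S` -/
@[reducible] def sg (Z : G → X → ι) (S : Finset G) : MeasurableSpace X :=
  MeasurableSpace.comap (JS Z S) ⊤

lemma le_sg (Z : G → X → ι) {S : Finset G} {b : G} (hb : b ∈ S) :
    MeasurableSpace.comap (Z b) ⊤ ≤ sg Z S := by
  rintro s ⟨t, -, rfl⟩
  exact ⟨{f | f ⟨b, hb⟩ ∈ t}, trivial, rfl⟩

variable [Fintype ι]

lemma sg_le {m : MeasurableSpace X} (Z : G → X → ι) {S : Finset G}
    (hS : ∀ b ∈ S, MeasurableSpace.comap (Z b) ⊤ ≤ m) : sg Z S ≤ m := by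
  classical
  rintro s ⟨t, -, rfl⟩
  have h1 : JS Z S ⁻¹' t = ⋃ f ∈ t, ⋂ b : S, {x | Z b.1 x = f b} := by
    ext x
    simp only [Set.mem_preimage, Set.mem_iUnion, Set.mem_iInter, Set.mem_ofPred_eq, exists_prop]
    constructor
    · intro h
      exact ⟨_, h, fun b => rfl⟩
    · rintro ⟨f, hf, h⟩
      rwa [show JS Z S x = f from funext h]
  rw [h1]
  refine MeasurableSet.biUnion (Set.toFinite t).countable fun f _ => ?_
  refine MeasurableSet.iInter fun b => ?_
  exact hS b.1 b.2 _ ⟨{f b}, trivial, rfl⟩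

lemma sg_mono (Z : G → X → ι) {S S' : Finset G} (h : S ⊆ S') : sg Z S ≤ sg Z S' :=
  sg_le Z fun _ hb => le_sg Z (h hb)

variable {m : MeasurableSpace X} {mX : MeasurableSpace X} (μ : Measure X)
  [IsProbabilityMeasure μ]

lemma JS_meas (Z : G → X → ι) (hZ : ∀ b, MeasurableSpace.comap (Z b) ⊤ ≤ mX) (S : Finset G)
    (i : S → ι) : MeasurableSet[mX] (JS Z S ⁻¹' {i}) :=
  measurableSet_preimage_of_comap _ (sg_le Z fun b _ => hZ b) _

/-- adding one variable -/
lemma cH_JS_insert [DecidableEq G] (hm : m ≤ mX) (Z : G → X → ι)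
    (hZ : ∀ b, MeasurableSpace.comap (Z b) ⊤ ≤ mX) {S : Finset G} {a : G} :
    cH μ m (JS Z (insert a S)) = cH μ m (JS Z S) + cH μ (m ⊔ sg Z S) (Z a) := by
  classical
  have h1 := cH_comp_injective (m := m) μ (JS Z (insert a S))
    (e := fun f : ({x : G // x ∈ insert a S} → ι) => (f ⟨a, Finset.mem_insert_self a S⟩,
      fun b : S => f ⟨b.1, Finset.mem_insert_of_mem b.2⟩)) (by
      intro f g hfg
      simp only [Prod.mk.injEq] at hfg
      funext b
      rcases Finset.mem_insert.1 b.2 with hb | hb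
      · have : b = ⟨a, Finset.mem_insert_self a S⟩ := Subtype.ext hb
        rw [this]
        exact hfg.1
      · exact congrFun hfg.2 ⟨b.1, hb⟩)
  have h2 : (fun x => ((JS Z (insert a S) x) ⟨a, Finset.mem_insert_self a S⟩,
      fun b : S => (JS Z (insert a S) x) ⟨b.1, Finset.mem_insert_of_mem b.2⟩)) =
      fun x => (Z a x, JS Z S x) := rfl
  rw [← h1]
  rw [h2]
  exact cH_pair μ hm (Z a) (JS Z S) (fun i => measurableSet_preimage_of_comap _ (hZ a) _)
    (fun i => JS_meas Z hZ S i)

/-- the chain rule, in the order of increasing labels -/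
lemma cH_JS_chain [DecidableEq G] (hm : m ≤ mX) (Z : G → X → ι)
    (hZ : ∀ b, MeasurableSpace.comap (Z b) ⊤ ≤ mX) {L : Type} [LinearOrder L] (t : G → L)
    (ht : Function.Injective t) (S : Finset G) :
    cH μ m (JS Z S) = ∑ a ∈ S, cH μ (m ⊔ sg Z (S.filter fun b => t b < t a)) (Z a) := by
  classical
  induction S using Finset.induction_on_max_value t with
  | empty =>
    rw [Finset.sum_empty]
    refine cH_eq_zero μ hm _ fun f => ?_
    exact measurableSet_preimage_of_comap _ (sg_le Z (by simp)) _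
  | insert a S ha hmax ih =>
    rw [cH_JS_insert μ hm Z hZ, Finset.sum_insert ha, ih, add_comm]
    have hlt : ∀ b ∈ S, t b < t a := fun b hb =>
      lt_of_le_of_ne (hmax b hb) fun h => ha (ht h ▸ hb)
    congr 1
    · have : (insert a S).filter (fun b => t b < t a) = S := by
        ext b
        simp only [Finset.mem_filter, Finset.mem_insert]
        constructor
        · rintro ⟨rfl | h, h'⟩
          · exact absurd h' (lt_irrefl _)
          · exact h
        · intro h
          exact ⟨Or.inr h, hlt b h⟩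
      rw [this]
    · refine Finset.sum_congr rfl fun b hb => ?_
      have : (insert a S).filter (fun c => t c < t b) = S.filter (fun c => t c < t b) := by
        rw [Finset.filter_insert, if_neg (not_lt.2 (hlt b hb).le)]
      rw [this]

lemma cH_JS_nonneg [DecidableEq G] (hm : m ≤ mX) (Z : G → X → ι)
    (hZ : ∀ b, MeasurableSpace.comap (Z b) ⊤ ≤ mX) (S : Finset G) : 0 ≤ cH μ m (JS Z S) :=
  cH_nonneg μ hm _ (JS_meas Z hZ S)

/-- the conditional entropy of a member given the members of `B` with smaller labels -/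
noncomputable def kap (Z : G → X → ι) {L : Type} [LinearOrder L] (t : G → L) (B : Finset G)
    (b : G) : ℝ := cH μ (sg Z (B.filter fun c => t c < t b)) (Z b)

lemma kap_nonneg (Z : G → X → ι) (hZ : ∀ b, MeasurableSpace.comap (Z b) ⊤ ≤ mX) {L : Type}
    [LinearOrder L] (t : G → L) (B : Finset G) (b : G) : 0 ≤ kap μ Z t B b :=
  cH_nonneg μ (sg_le Z fun b _ => hZ b) _ (fun i => measurableSet_preimage_of_comap _ (hZ b) _)

lemma kap_le (Z : G → X → ι) (hZ : ∀ b, MeasurableSpace.comap (Z b) ⊤ ≤ mX) {L : Type}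
    [LinearOrder L] (t : G → L) (B : Finset G) (b : G) : kap μ Z t B b ≤ Fintype.card ι :=
  cH_le_card μ (sg_le Z fun b _ => hZ b) _ (fun i => measurableSet_preimage_of_comap _ (hZ b) _)

lemma sum_kap [DecidableEq G] (Z : G → X → ι) (hZ : ∀ b, MeasurableSpace.comap (Z b) ⊤ ≤ mX)
    {L : Type} [LinearOrder L] (t : G → L) (ht : Function.Injective t) (B : Finset G) :
    ∑ b ∈ B, kap μ Z t B b = cH μ ⊥ (JS Z B) := by
  rw [cH_JS_chain (m := ⊥) μ bot_le Z hZ t ht B]
  refine Finset.sum_congr rfl fun b _ => ?_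
  rw [bot_sup_eq, kap]

/-- If `E` lies below `F` and both are in `B`. -/
lemma sum_kap_le [DecidableEq G] (Z : G → X → ι) (hZ : ∀ b, MeasurableSpace.comap (Z b) ⊤ ≤ mX)
    {L : Type} [LinearOrder L] (t : G → L) (ht : Function.Injective t) (B E F : Finset G)
    (hE : E ⊆ B) (hF : F ⊆ B) (hEF : ∀ e ∈ E, ∀ f ∈ F, t e < t f) :
    ∑ b ∈ F, kap μ Z t B b ≤ cH μ (sg Z E) (JS Z F) := by
  rw [cH_JS_chain (m := sg Z E) μ (sg_le Z fun b _ => hZ b) Z hZ t ht F]
  refine Finset.sum_le_sum fun b hb => ?_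
  rw [kap]
  refine cH_anti μ (sup_le ?_ ?_) (sg_le Z fun b _ => hZ b) _
    (fun i => measurableSet_preimage_of_comap _ (hZ b) _)
  · refine sg_mono Z fun e he => Finset.mem_filter.2 ⟨hE he, hEF e he b hb⟩
  · refine sg_mono Z fun e he => ?_
    have := Finset.mem_filter.1 he
    exact Finset.mem_filter.2 ⟨hF this.1, this.2⟩

lemma sg_empty_le (Z : G → X → ι) (m : MeasurableSpace X) : sg Z ∅ ≤ m := sg_le Z (by simp)

lemma cH_sg_empty (Z : G → X → ι) {ι' : Type} [Fintype ι'] (Y : X → ι') :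
    cH μ (sg Z ∅) Y = cH μ ⊥ Y := by
  rw [le_antisymm (sg_empty_le Z ⊥) bot_le]

/-- Shearer -/
lemma sum_kap_sub [DecidableEq G] (Z : G → X → ι) (hZ : ∀ b, MeasurableSpace.comap (Z b) ⊤ ≤ mX)
    {L : Type} [LinearOrder L] (t : G → L) (ht : Function.Injective t) (B F : Finset G)
    (hF : F ⊆ B) : ∑ b ∈ F, kap μ Z t B b ≤ cH μ ⊥ (JS Z F) := by
  have := sum_kap_le μ Z hZ t ht B ∅ F (Finset.empty_subset _) hF (by simp)
  rwa [cH_sg_empty] at this

lemma cH_JS_le [DecidableEq G] (hm : m ≤ mX) (Z : G → X → ι)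
    (hZ : ∀ b, MeasurableSpace.comap (Z b) ⊤ ≤ mX) {L : Type} [LinearOrder L] (t : G → L)
    (ht : Function.Injective t) (S : Finset G) :
    cH μ m (JS Z S) ≤ ∑ a ∈ S, cH μ m (Z a) := by
  rw [cH_JS_chain μ hm Z hZ t ht S]
  refine Finset.sum_le_sum fun a _ => ?_
  exact cH_anti μ le_sup_left (sup_le hm (sg_le Z fun b _ => hZ b)) _ fun i =>
    measurableSet_preimage_of_comap _ (hZ a) _

end Joint

section Act

variable {G X ι : Type} [Group G] [Fintype ι] {mX : MeasurableSpace X} (μ : Measure X)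
  [IsProbabilityMeasure μ]

/-- the observations -/
def obs (W : G → X → X) (P : X → ι) (g : G) (x : X) : ι := P (W g x)

lemma comap_obs (W : G → X → X) (P : X → ι) (g : G) :
    MeasurableSpace.comap (obs W P g) ⊤ =
      MeasurableSpace.comap (W g) (MeasurableSpace.comap P ⊤) := by
  rw [MeasurableSpace.comap_comp]
  rfl

lemma obs_meas {W : G → X → X} (hWm : ∀ a, Measurable (W a)) {P : X → ι}
    (hP : MeasurableSpace.comap P ⊤ ≤ mX) (g : G) :
    MeasurableSpace.comap (obs W P g) ⊤ ≤ mX := by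
  rw [comap_obs]
  exact (MeasurableSpace.comap_mono hP).trans (hWm g).comap_le

variable [DecidableEq G]

lemma comap_sg {W : G → X → X} (hWmul : ∀ a b x, W (a * b) x = W a (W b x)) (P : X → ι)
    (E : Finset G) (c : G) :
    (sg (obs W P) E).comap (W c) = sg (obs W P) (E.image (· * c)) := by
  have h0 : ∀ g, (fun x => obs W P g (W c x)) = obs W P (g * c) := by
    intro g
    funext x
    show P (W g (W c x)) = P (W (g * c) x)
    rw [hWmul]
  have h1 : (sg (obs W P) E).comap (W c) = sg (fun g x => obs W P g (W c x)) E := by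
    rw [MeasurableSpace.comap_comp]
    rfl
  rw [h1]
  refine le_antisymm (sg_le _ fun b hb => ?_) (sg_le _ fun b hb => ?_)
  · show MeasurableSpace.comap (fun x => obs W P b (W c x)) ⊤ ≤ _
    rw [h0]
    exact le_sg _ (Finset.mem_image_of_mem _ hb)
  · obtain ⟨g, hg, rfl⟩ := Finset.mem_image.1 hb
    show MeasurableSpace.comap (obs W P (g * c)) ⊤ ≤ _
    rw [← h0]
    exact le_sg (fun g x => obs W P g (W c x)) hg

lemma cH_translate {W : G → X → X} (hWmul : ∀ a b x, W (a * b) x = W a (W b x))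
    (hWmp : ∀ a, MeasurePreserving (W a) μ μ) {P : X → ι}
    (hP : MeasurableSpace.comap P ⊤ ≤ mX) (E F : Finset G) (c : G) :
    cH μ (sg (obs W P) (E.image (· * c))) (JS (obs W P) (F.image (· * c))) =
      cH μ (sg (obs W P) E) (JS (obs W P) F) := by
  have hWm : ∀ a, Measurable (W a) := fun a => (hWmp a).measurable
  have h1 := cH_comap μ (m := sg (obs W P) E) (sg_le _ fun b _ => obs_meas hWm hP b)
    (JS (obs W P) F) (JS_meas _ (fun b => obs_meas hWm hP b) F) (hWmp c)
  rw [comap_sg hWmul P E c] at h1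
  rw [← h1]
  have h2 := cH_comp_injective (m := sg (obs W P) (E.image (· * c))) μ
    (JS (obs W P) (F.image (· * c)))
    (e := fun f : ({x : G // x ∈ F.image (· * c)} → ι) => fun g : F =>
      f ⟨g.1 * c, Finset.mem_image_of_mem _ g.2⟩) (by
      intro f f' hff
      funext b
      obtain ⟨g, hg, hgb⟩ := Finset.mem_image.1 b.2
      have h3 := congrFun hff ⟨g, hg⟩
      have h4 : b = ⟨g * c, Finset.mem_image_of_mem _ hg⟩ := Subtype.ext hgb.symm
      rw [h4]
      exact h3)
  rw [← h2]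
  congr 1
  funext x g
  show P (W (g.1 * c) x) = P (W g.1 (W c x))
  rw [hWmul]

omit [Fintype ι] in
lemma count (F B D C : Finset G) (κ : G → ℝ) (hκ : ∀ b, 0 ≤ κ b)
    (hC : ∀ f ∈ F, ∀ b ∈ B, b ∉ D → f⁻¹ * b ∈ C) :
    (F.card : ℝ) * ∑ b ∈ B \ D, κ b ≤ ∑ c ∈ C, ∑ a ∈ F.image (· * c), κ a := by
  have h1 : ∀ c, ∑ a ∈ F.image (· * c), κ a = ∑ f ∈ F, κ (f * c) := fun c =>
    Finset.sum_image fun a _ b _ h => mul_right_cancel h
  rw [Finset.sum_congr rfl fun c _ => h1 c, Finset.sum_comm, ← nsmul_eq_mul,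
    ← Finset.sum_const]
  refine Finset.sum_le_sum fun f hf => ?_
  have h2 : ∑ b ∈ B \ D, κ b = ∑ c ∈ (B \ D).image (fun b => f⁻¹ * b), κ (f * c) := by
    rw [Finset.sum_image fun a _ b _ h => mul_left_cancel h]
    refine Finset.sum_congr rfl fun b _ => ?_
    rw [mul_inv_cancel_left]
  rw [h2]
  refine Finset.sum_le_sum_of_subset_of_nonneg ?_ fun c _ _ => hκ _
  intro c hc
  obtain ⟨b, hb, rfl⟩ := Finset.mem_image.1 hc
  rw [Finset.mem_sdiff] at hb
  exact hC f hf b hb.1 hb.2

/-- The main inequality. -/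
lemma key_ineq {W : G → X → X} (hWmul : ∀ a b x, W (a * b) x = W a (W b x))
    (hWmp : ∀ a, MeasurePreserving (W a) μ μ) {P : X → ι}
    (hP : MeasurableSpace.comap P ⊤ ≤ mX) {L : Type} [LinearOrder L] (t : G → L)
    (ht : Function.Injective t) (E F B D : Finset G)
    (hEF : ∀ c, ∀ e ∈ E, ∀ f ∈ F, t (e * c) < t (f * c)) (hDB : D ⊆ B)
    (hB : ∀ b ∈ B, b ∉ D → ∀ g ∈ E ∪ F, ∀ f ∈ F, g * (f⁻¹ * b) ∈ B) {f0 : G} (hf0 : f0 ∈ F) :
    (F.card : ℝ) * (cH μ ⊥ (JS (obs W P) B) - Fintype.card ι * D.card) ≤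
      B.card * cH μ (sg (obs W P) E) (JS (obs W P) F) := by
  have hWm : ∀ a, Measurable (W a) := fun a => (hWmp a).measurable
  have hZ : ∀ g, MeasurableSpace.comap (obs W P g) ⊤ ≤ mX := obs_meas hWm hP
  set κ : G → ℝ := kap μ (obs W P) t B with hκ
  have hκ0 : ∀ b, 0 ≤ κ b := kap_nonneg μ _ hZ t B
  have hκ1 : ∀ b, κ b ≤ Fintype.card ι := kap_le μ _ hZ t B
  have hsum : ∑ b ∈ B \ D, κ b + ∑ b ∈ D, κ b = cH μ ⊥ (JS (obs W P) B) := by
    rw [Finset.sum_sdiff hDB, sum_kap μ _ hZ t ht B]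
  have hD : ∑ b ∈ D, κ b ≤ Fintype.card ι * D.card := by
    refine (Finset.sum_le_sum fun b _ => hκ1 b).trans (le_of_eq ?_)
    rw [Finset.sum_const, nsmul_eq_mul, mul_comm]
  set C : Finset G := (B.image fun b => f0⁻¹ * b).filter fun c =>
    (∀ e ∈ E, e * c ∈ B) ∧ ∀ f ∈ F, f * c ∈ B with hC
  have h1 := count F B D C κ hκ0 (by
    intro f hf b hb hbD
    rw [hC, Finset.mem_filter]
    refine ⟨Finset.mem_image.2 ⟨f0 * (f⁻¹ * b),
      hB b hb hbD f0 (Finset.mem_union_right _ hf0) f hf, by rw [inv_mul_cancel_left]⟩, ?_, ?_⟩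
    · intro e he
      exact hB b hb hbD e (Finset.mem_union_left _ he) f hf
    · intro g hg
      exact hB b hb hbD g (Finset.mem_union_right _ hg) f hf)
  have h2 : ∀ c ∈ C, ∑ a ∈ F.image (· * c), κ a ≤
      cH μ (sg (obs W P) E) (JS (obs W P) F) := by
    intro c hc
    rw [hC, Finset.mem_filter] at hc
    rw [← cH_translate μ hWmul hWmp hP E F c]
    refine sum_kap_le μ _ hZ t ht B _ _ ?_ ?_ ?_
    · intro e he
      obtain ⟨e', he', rfl⟩ := Finset.mem_image.1 he
      exact hc.2.1 e' he'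
    · intro f hf
      obtain ⟨f', hf', rfl⟩ := Finset.mem_image.1 hf
      exact hc.2.2 f' hf'
    · intro e he f hf
      obtain ⟨e', he', rfl⟩ := Finset.mem_image.1 he
      obtain ⟨f', hf', rfl⟩ := Finset.mem_image.1 hf
      exact hEF c e' he' f' hf'
  have h3 := h1.trans (Finset.sum_le_sum h2)
  rw [Finset.sum_const, nsmul_eq_mul] at h3
  have h4 : (C.card : ℝ) ≤ B.card := by
    have : C.card ≤ B.card := (Finset.card_filter_le _ _).trans Finset.card_image_le
    exact_mod_cast this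
  have h5 : 0 ≤ cH μ (sg (obs W P) E) (JS (obs W P) F) :=
    cH_JS_nonneg μ (sg_le _ fun b _ => hZ b) _ hZ F
  have h6 : (F.card : ℝ) * (cH μ ⊥ (JS (obs W P) B) - Fintype.card ι * D.card) ≤
      F.card * ∑ b ∈ B \ D, κ b :=
    mul_le_mul_of_nonneg_left (by linarith) (Nat.cast_nonneg _)
  exact h6.trans (h3.trans (mul_le_mul_of_nonneg_right h4 h5))

/-- the entropy of the join is the entropy of the joint variable -/
lemma joinEntropy_eq {W : G → X → X} {A : Set X} (F : Finset G) (Q : X → Bool)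
    (hQ : ∀ x, Q x = true ↔ x ∈ A)
    (hm : ∀ b, MeasurableSpace.comap (obs W Q b) ⊤ ≤ mX) :
    joinEntropy μ W A F = cH μ ⊥ (JS (obs W Q) F) := by
  rw [cH_bot μ _ (JS_meas _ hm F), joinEntropy]
  refine Finset.sum_bij' (fun ω _ => fun g : F => decide (g.1 ∈ ω))
    (fun f _ => F.attach.filter (fun g => f g = true) |>.image Subtype.val) ?_ ?_ ?_ ?_ ?_
  · intro ω _
    exact Finset.mem_univ _
  · intro f _
    rw [Finset.mem_powerset]
    intro g hg
    obtain ⟨g', _, rfl⟩ := Finset.mem_image.1 hg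
    exact g'.2
  · intro ω hω
    rw [Finset.mem_powerset] at hω
    ext g
    simp only [Finset.mem_image, Finset.mem_filter, Finset.mem_attach, true_and,
      decide_eq_true_eq, Subtype.exists, exists_and_left, exists_prop]
    constructor
    · rintro ⟨a, ha, _, rfl⟩
      exact ha
    · intro hg
      exact ⟨g, hg, hω hg, rfl⟩
  · intro f _
    funext g
    have h1 : (g.1 ∈ (F.attach.filter (fun g => f g = true)).image Subtype.val) ↔
        f g = true := by
      simp only [Finset.mem_image, Finset.mem_filter, Finset.mem_attach, true_and]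
      constructor
      · rintro ⟨a, ha, hag⟩
        rw [← Subtype.ext hag]
        exact ha
      · intro hg
        exact ⟨g, hg, rfl⟩
    rw [Bool.eq_iff_iff, decide_eq_true_eq, h1]
  · intro ω _
    congr 2
    ext x
    simp only [Set.mem_ofPred_eq, Set.mem_preimage, Set.mem_singleton_iff]
    constructor
    · intro h
      funext g
      have h1 := h g.1 g.2
      show Q (W g.1 x) = decide (g.1 ∈ ω)
      rw [Bool.eq_iff_iff, decide_eq_true_eq, hQ]
      exact h1
    · intro h g hg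
      have h1 := congrFun h ⟨g, hg⟩
      have h2 : Q (W g x) = decide (g ∈ ω) := h1
      rw [← hQ, h2, decide_eq_true_eq]

end Act

section Main

variable {G : Type} [Group G]

lemma comap_past_le {X : Type} (W : G → X → X) (hWmul : ∀ a b x, W (a * b) x = W a (W b x))
    (φ : G → ℝ) (hφ : ∀ a b, φ (a * b) = φ a + φ b) (mP : MeasurableSpace X) (v : G) (t : ℝ) :
    MeasurableSpace.comap (W v) (past W φ mP t) ≤ past W φ mP (t + φ v) := by
  rw [MeasurableSpace.comap_iSup]
  refine iSup_le fun u => ?_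
  rw [MeasurableSpace.comap_comp]
  have h1 : W u.1 ∘ W v = W (u.1 * v) := by
    funext x
    exact (hWmul _ _ _).symm
  rw [h1]
  refine comap_le_past W φ mP ?_
  rw [hφ]
  linarith [u.2]

lemma comap_tail_le {X : Type} (W : G → X → X) (hWmul : ∀ a b x, W (a * b) x = W a (W b x))
    (φ : G → ℝ) (hφ : ∀ a b, φ (a * b) = φ a + φ b) (mP : MeasurableSpace X) (v : G) :
    MeasurableSpace.comap (W v) (tail W φ mP) ≤ tail W φ mP := by
  refine le_iInf fun n => ?_
  have h1 : tail W φ mP ≤ past W φ mP (-(n : ℝ) - φ v) := tail_le_past W φ mP _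
  refine (MeasurableSpace.comap_mono h1).trans ?_
  refine (comap_past_le W hWmul φ hφ mP v _).trans ?_
  rw [sub_add_cancel]

theorem tailZero_of_folner (G : Type) [Group G] [Countable G] (hG : Folner G) : TailZero G := by
  classical
  intro X mX μ hμ W _ hWmul hWmp φ hφ ι hι P hP A hA
  have hWm : ∀ a, Measurable (W a) := fun a => (hWmp a).measurable
  have hmP : MeasurableSpace.comap P ⊤ ≤ mX := comap_top_le P hP
  set mP := MeasurableSpace.comap P ⊤ with hmPdef
  set T := tail W φ mP with hTdef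
  have hTle : T ≤ mX := tail_le W φ hmP hWm
  have hZ : ∀ g, MeasurableSpace.comap (obs W P g) ⊤ ≤ mX := obs_meas hWm hmP
  -- the labels
  obtain ⟨enc, henc⟩ := exists_injective_nat G
  set t : G → ℝ ×ₗ ℕ := fun g => toLex (φ g, enc g) with ht
  have htinj : Function.Injective t := by
    intro a b hab
    have h1 := congrArg (fun q => (ofLex q).2) hab
    exact henc h1
  have htlt : ∀ a b, φ a < φ b → t a < t b := fun a b h => Prod.Lex.toLex_lt_toLex.2 (Or.inl h)
  -- exhaustion
  obtain ⟨en, hen⟩ := exists_surjective_nat G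
  set E : ℕ → Finset G := fun n => (Finset.range n).image en with hE
  have hEmono : Monotone E := fun a b hab =>
    Finset.image_subset_image (Finset.range_mono hab)
  have hEex : ∀ g, ∃ n, g ∈ E n := by
    intro g
    obtain ⟨n, rfl⟩ := hen g
    exact ⟨n + 1, Finset.mem_image_of_mem _ (Finset.mem_range.2 (Nat.lt_succ_self n))⟩
  have hpast : ∀ s : ℝ, ⨆ n, sg (obs W P) ((E n).filter fun u => φ u < s) = past W φ mP s := by
    intro s
    refine le_antisymm (iSup_le fun n => sg_le _ fun b hb => ?_) (iSup_le fun u => ?_)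
    · rw [comap_obs]
      exact comap_le_past W φ mP (Finset.mem_filter.1 hb).2
    · obtain ⟨n, hn⟩ := hEex u.1
      refine le_iSup_of_le n ?_
      have := le_sg (obs W P) (S := (E n).filter fun u => φ u < s) (b := u.1)
        (Finset.mem_filter.2 ⟨hn, u.2⟩)
      rwa [comap_obs] at this
  -- the infimum
  set H : Finset G → ℝ := fun F => cH μ ⊥ (JS (obs W P) F) with hH
  have hH0 : ∀ F, 0 ≤ H F := fun F => cH_JS_nonneg μ bot_le _ hZ F
  set h : ℝ := ⨅ F : {F : Finset G // F.Nonempty}, H F.1 / (F.1.card : ℝ) with hh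
  have hbdd : BddBelow (Set.range fun F : {F : Finset G // F.Nonempty} =>
      H F.1 / (F.1.card : ℝ)) := by
    refine ⟨0, ?_⟩
    rintro _ ⟨F, rfl⟩
    exact div_nonneg (hH0 _) (Nat.cast_nonneg _)
  have hhle : ∀ F : Finset G, F.Nonempty → h * F.card ≤ H F := by
    intro F hF
    have h1 : h ≤ H F / (F.card : ℝ) := ciInf_le hbdd (⟨F, hF⟩ : {F : Finset G // F.Nonempty})
    have h2 : (0 : ℝ) < F.card := by exact_mod_cast hF.card_pos
    rwa [le_div_iff₀ h2] at h1
  have hι0 : (0 : ℝ) ≤ Fintype.card ι := Nat.cast_nonneg _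
  -- the lower bound
  have hlow1 : ∀ E' F : Finset G, F.Nonempty → (∀ e ∈ E', ∀ f ∈ F, φ e < φ f) →
      h * F.card ≤ cH μ (sg (obs W P) E') (JS (obs W P) F) := by
    intro E' F hF hEF
    obtain ⟨f0, hf0⟩ := hF
    have hFpos : (0 : ℝ) < F.card := by exact_mod_cast Finset.card_pos.2 ⟨f0, hf0⟩
    have h1 : ∀ δ : ℝ, 0 < δ → F.card * (h - Fintype.card ι * δ) ≤
        cH μ (sg (obs W P) E') (JS (obs W P) F) := by
      intro δ hδ
      obtain ⟨B, hBne, D, hDB, hB, hD⟩ := hG (((E' ∪ F) ×ˢ F).image fun q => q.1 * q.2⁻¹) δ hδ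
      have hBpos : (0 : ℝ) < B.card := by exact_mod_cast hBne.card_pos
      have h2 := key_ineq μ hWmul hWmp hmP t htinj E' F B D (by
        intro c e he f hf
        refine htlt _ _ ?_
        rw [hφ, hφ]
        linarith [hEF e he f hf]) hDB (by
        intro b hb hbD g hg f hf
        rw [← mul_assoc]
        exact hB b hb hbD _ (Finset.mem_image.2 ⟨(g, f), Finset.mem_product.2 ⟨hg, hf⟩, rfl⟩))
        hf0
      have h3 : (B.card : ℝ) * (F.card * (h - Fintype.card ι * δ)) ≤
          B.card * cH μ (sg (obs W P) E') (JS (obs W P) F) := by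
        refine le_trans ?_ h2
        have h4 : h * B.card ≤ H B := hhle B hBne
        have h5 : (Fintype.card ι : ℝ) * D.card ≤ Fintype.card ι * (δ * B.card) :=
          mul_le_mul_of_nonneg_left hD hι0
        have h6 : (B.card : ℝ) * (h - Fintype.card ι * δ) ≤ H B - Fintype.card ι * D.card := by
          have : (B.card : ℝ) * (h - Fintype.card ι * δ) =
            h * B.card - Fintype.card ι * (δ * B.card) := by ring
          rw [this]
          linarith
        calc (B.card : ℝ) * (F.card * (h - Fintype.card ι * δ)) =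
            F.card * (B.card * (h - Fintype.card ι * δ)) := by ring
          _ ≤ F.card * (H B - Fintype.card ι * D.card) :=
            mul_le_mul_of_nonneg_left h6 hFpos.le
      exact le_of_mul_le_mul_left h3 hBpos
    refine le_of_forall_pos_le_add fun x hx => ?_
    have h7 : (0 : ℝ) < x / (F.card * (Fintype.card ι + 1)) := by positivity
    have h8 := h1 _ h7
    have h9 : (F.card : ℝ) * (Fintype.card ι * (x / (F.card * (Fintype.card ι + 1)))) ≤ x := by
      have : (F.card : ℝ) * (Fintype.card ι * (x / (F.card * (Fintype.card ι + 1)))) =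
          x * (Fintype.card ι / (Fintype.card ι + 1)) := by
        field_simp
      rw [this]
      have h10 : (Fintype.card ι : ℝ) / (Fintype.card ι + 1) ≤ 1 := by
        rw [div_le_one (by positivity)]
        linarith
      calc x * (Fintype.card ι / (Fintype.card ι + 1)) ≤ x * 1 :=
          mul_le_mul_of_nonneg_left h10 hx.le
        _ = x := mul_one x
    have h11 : (F.card : ℝ) * (h - Fintype.card ι * (x / (F.card * (Fintype.card ι + 1)))) =
        h * F.card - F.card * (Fintype.card ι * (x / (F.card * (Fintype.card ι + 1)))) := by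
      ring
    rw [h11] at h8
    linarith
  have hlow : ∀ F : Finset G, F.Nonempty → h * F.card ≤ cH μ T (JS (obs W P) F) := by
    intro F hF
    set n : ℕ := ⌈∑ f ∈ F, |φ f|⌉₊ with hn
    have hnle : ∀ f ∈ F, -(n : ℝ) ≤ φ f := by
      intro f hf
      have h1 : |φ f| ≤ ∑ f ∈ F, |φ f| :=
        Finset.single_le_sum (f := fun f => |φ f|) (fun _ _ => abs_nonneg _) hf
      have h2 : ∑ f ∈ F, |φ f| ≤ n := Nat.le_ceil _
      have h3 := neg_abs_le (φ f)
      linarith
    have h1 : cH μ (past W φ mP (-(n : ℝ))) (JS (obs W P) F) ≤ cH μ T (JS (obs W P) F) :=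
      cH_anti μ (tail_le_past W φ mP _) (past_le W φ hmP hWm _) _ (JS_meas _ hZ F)
    refine le_trans ?_ h1
    have h2 := tendsto_cH μ (m := fun k => sg (obs W P) ((E k).filter fun u => φ u < -(n : ℝ)))
      (fun a b hab => sg_mono _ (Finset.filter_subset_filter _ (hEmono hab)))
      (fun k => sg_le _ fun b _ => hZ b) (JS (obs W P) F) (JS_meas _ hZ F)
    rw [hpast] at h2
    refine ge_of_tendsto' h2 fun k => hlow1 _ F hF ?_
    intro e he f hf
    exact lt_of_lt_of_le (Finset.mem_filter.1 he).2 (hnle f hf)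
  -- the set `A`
  let Q : X → Bool := fun x => decide (x ∈ A)
  have hQA : ∀ x, Q x = true ↔ x ∈ A := fun x => by simp [Q]
  have hQT : MeasurableSpace.comap Q ⊤ ≤ T := by
    refine comap_top_le Q fun i => ?_
    cases i with
    | true =>
      have : Q ⁻¹' {true} = A := by ext x; simp [Q]
      rw [this]; exact hA
    | false =>
      have : Q ⁻¹' {false} = Aᶜ := by ext x; simp [Q]
      rw [this]; exact hA.compl
  have hZQT : ∀ g, MeasurableSpace.comap (obs W Q g) ⊤ ≤ T := by
    intro g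
    rw [comap_obs]
    exact (MeasurableSpace.comap_mono hQT).trans (comap_tail_le W hWmul φ hφ mP g)
  have hZQ : ∀ g, MeasurableSpace.comap (obs W Q g) ⊤ ≤ mX := fun g => (hZQT g).trans hTle
  have hQm : ∀ i, MeasurableSet[mX] (Q ⁻¹' {i}) := fun i =>
    measurableSet_preimage_of_comap _ (hQT.trans hTle) _
  intro ε hε
  set ε1 : ℝ := ε / 5 with hε1
  have hε10 : 0 < ε1 := by positivity
  -- a finite window for `A`
  have hwin : Tendsto (fun k => cH μ (sg (obs W P) (E k)) Q) atTop (𝓝 0) := by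
    have h1 := tendsto_cH μ (m := fun k => sg (obs W P) (E k))
      (fun a b hab => sg_mono _ (hEmono hab)) (fun k => sg_le _ fun b _ => hZ b) Q hQm
    have h0 : cH μ (⨆ k, sg (obs W P) (E k)) Q = 0 := by
      refine cH_eq_zero μ (iSup_le fun k => sg_le _ fun b _ => hZ b) Q fun i => ?_
      have hle : T ≤ ⨆ k, sg (obs W P) (E k) := by
        refine (tail_le_past W φ mP 0).trans ?_
        rw [← hpast]
        exact iSup_mono fun k => sg_mono _ (Finset.filter_subset _ _)
      exact measurableSet_preimage_of_comap _ (hQT.trans hle) _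
    rwa [h0] at h1
  obtain ⟨k, hk⟩ := ((tendsto_order.1 hwin).2 ε1 hε10).exists
  -- a nearly optimal set
  have hne : Nonempty {F : Finset G // F.Nonempty} := ⟨⟨{1}, Finset.singleton_nonempty _⟩⟩
  obtain ⟨F0, hF0⟩ := exists_lt_of_ciInf_lt (show h < h + ε1 by linarith)
  have hF0pos : (0 : ℝ) < F0.1.card := by exact_mod_cast F0.2.card_pos
  have hF0le : H F0.1 ≤ (h + ε1) * F0.1.card := by
    rw [div_lt_iff₀ hF0pos] at hF0
    exact hF0.le
  obtain ⟨f0, hf0⟩ := F0.2
  set δ : ℝ := min (1 / 2) (ε1 / (Fintype.card ι + 1)) with hδ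
  have hδ0 : 0 < δ := by
    rw [hδ]
    exact lt_min (by norm_num) (by positivity)
  have hδ1 : (Fintype.card ι : ℝ) * δ ≤ ε1 := by
    have h1 : δ ≤ ε1 / (Fintype.card ι + 1) := min_le_right _ _
    have h2 : (Fintype.card ι : ℝ) * δ ≤ (Fintype.card ι + 1) * (ε1 / (Fintype.card ι + 1)) :=
      mul_le_mul (by linarith) h1 hδ0.le (by positivity)
    have h3 : ((Fintype.card ι : ℝ) + 1) * (ε1 / (Fintype.card ι + 1)) = ε1 := by
      field_simp
    linarith
  obtain ⟨B, hBne, D, hDB, hB, hD⟩ :=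
    hG (E k ∪ (F0.1 ×ˢ F0.1).image fun q => q.1 * q.2⁻¹) δ hδ0
  have hBpos : (0 : ℝ) < B.card := by exact_mod_cast hBne.card_pos
  have hHB : H B ≤ (h + 2 * ε1) * B.card := by
    have h2 := key_ineq μ hWmul hWmp hmP t htinj ∅ F0.1 B D (by simp) hDB (by
      intro b hb hbD g hg f hf
      rw [Finset.empty_union] at hg
      rw [← mul_assoc]
      exact hB b hb hbD _ (Finset.mem_union_right _
        (Finset.mem_image.2 ⟨(g, f), Finset.mem_product.2 ⟨hg, hf⟩, rfl⟩))) hf0
    rw [cH_sg_empty] at h2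
    have h3 : (F0.1.card : ℝ) * (H B - Fintype.card ι * D.card) ≤
        F0.1.card * ((h + ε1) * B.card) := by
      refine h2.trans ?_
      calc (B.card : ℝ) * cH μ ⊥ (JS (obs W P) F0.1) ≤ B.card * ((h + ε1) * F0.1.card) :=
          mul_le_mul_of_nonneg_left hF0le hBpos.le
        _ = _ := by ring
    have h4 := le_of_mul_le_mul_left h3 hF0pos
    have h5 : (Fintype.card ι : ℝ) * D.card ≤ ε1 * B.card := by
      calc (Fintype.card ι : ℝ) * D.card ≤ Fintype.card ι * (δ * B.card) :=
          mul_le_mul_of_nonneg_left hD hι0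
        _ = (Fintype.card ι * δ) * B.card := by ring
        _ ≤ ε1 * B.card := mul_le_mul_of_nonneg_right hδ1 hBpos.le
    linarith
  set F : Finset G := B \ D with hF
  have hFcard : (B.card : ℝ) ≤ 2 * F.card := by
    have h1 : (F.card : ℝ) = B.card - D.card := by
      rw [hF, Finset.card_sdiff_of_subset hDB, Nat.cast_sub (Finset.card_le_card hDB)]
    have h2 : (D.card : ℝ) ≤ 1 / 2 * B.card :=
      hD.trans (mul_le_mul_of_nonneg_right (min_le_left _ _) hBpos.le)
    rw [h1]
    linarith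
  have hFne : F.Nonempty := by
    rw [← Finset.card_pos]
    have : (0 : ℝ) < F.card := by linarith
    exact_mod_cast this
  refine ⟨F, hFne, ?_⟩
  rw [joinEntropy_eq μ F Q hQA hZQ]
  -- the final estimate
  have e1 := cH_pair (m := ⊥) μ bot_le (JS (obs W P) B) (JS (obs W Q) F)
    (JS_meas _ hZ B) (JS_meas _ hZQ F)
  have e2 := cH_pair (m := ⊥) μ bot_le (JS (obs W Q) F) (JS (obs W P) B)
    (JS_meas _ hZQ F) (JS_meas _ hZ B)
  have e3 := cH_comp_injective (m := ⊥) μ
    (fun x => (JS (obs W P) B x, JS (obs W Q) F x)) (e := Prod.swap) Prod.swap_injective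
  simp only [Prod.swap_prod_mk] at e3
  rw [bot_sup_eq] at e1 e2
  have e4 : cH μ T (JS (obs W P) B) ≤ cH μ (sg (obs W Q) F) (JS (obs W P) B) :=
    cH_anti μ (sg_le _ fun b _ => hZQT b) hTle _ (JS_meas _ hZ B)
  have e5 := hlow B hBne
  have e6 : cH μ (sg (obs W P) B) (JS (obs W Q) F) ≤ F.card * ε1 := by
    refine (cH_JS_le μ (sg_le _ fun b _ => hZ b) _ hZQ t htinj F).trans ?_
    rw [← nsmul_eq_mul, ← Finset.sum_const]
    refine Finset.sum_le_sum fun g hg => ?_
    have hg' := Finset.mem_sdiff.1 hg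
    have h1 : cH μ ((sg (obs W P) (E k)).comap (W g)) (fun x => Q (W g x)) =
        cH μ (sg (obs W P) (E k)) Q :=
      cH_comap μ (sg_le _ fun b _ => hZ b) Q hQm (hWmp g)
    rw [comap_sg hWmul P (E k) g] at h1
    refine le_trans ?_ (h1.trans_le hk.le)
    refine cH_anti μ (sg_mono _ ?_) (sg_le _ fun b _ => hZ b) _ fun i =>
      measurableSet_preimage_of_comap _ (hZQ g) _
    intro c hc
    obtain ⟨e, he, rfl⟩ := Finset.mem_image.1 hc
    exact hB g hg'.1 hg'.2 e (Finset.mem_union_left _ he)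
  have e7 : H B ≤ (h + 2 * ε1) * B.card := hHB
  have e8 : (F.card : ℝ) * ε1 + 2 * ε1 * B.card ≤ ε * F.card := by
    have : 2 * ε1 * B.card ≤ 2 * ε1 * (2 * F.card) :=
      mul_le_mul_of_nonneg_left hFcard (by positivity)
    rw [hε1] at this ⊢
    linarith
  have e9 : (h + 2 * ε1) * (B.card : ℝ) = h * B.card + 2 * ε1 * B.card := by ring
  have e10 : H B = cH μ ⊥ (JS (obs W P) B) := rfl
  have e11 : cH μ (MeasurableSpace.comap (JS (obs W Q) F) ⊤) (JS (obs W P) B) =
    cH μ (sg (obs W Q) F) (JS (obs W P) B) := rfl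
  have e12 : cH μ (MeasurableSpace.comap (JS (obs W P) B) ⊤) (JS (obs W Q) F) =
    cH μ (sg (obs W P) B) (JS (obs W Q) F) := rfl
  linarith

end Main

end Pool.Agent.Lib.Pf720np
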