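import Pool.Agent.Lib.Pf720np.Wrap

set_option autoImplicit false

open MeasureTheory Filter Topology
open scoped ENNReal

namespace Pool.Agent.Lib.Pf720np.Hand

/-- The ordered composition `T_1^{e_1} ∘ ⋯ ∘ T_d^{e_d}` (the factor `i = 1` leftmost, so the factor
`i = d` acts first). -/
def word {X : Type} {d : ℕ} (T : Fin d → Equiv.Perm X) (e : Fin d → ℤ) : Equiv.Perm X :=
  (List.ofFn fun i => T i ^ e i).prod

/-- `S_j(m) = T_1^{P_1(m)} ∘ ⋯ ∘ T_d^{P_d(m)}` with `P_i(m) = ∑_l q_{l,i}(m_l)`. -/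
def curve {X : Type} {d k : ℕ} (T : Fin d → Equiv.Perm X) (q : Fin k → Fin d → Polynomial ℤ)
    (m : Fin k → ℕ) : Equiv.Perm X :=
  word T fun i => ∑ l, (q l i).eval (m l : ℤ)

/-- `(M_1 ⋯ M_k)⁻¹ ∑_{m ∈ [M_1] × ⋯ × [M_k]} ∏_j f_j (S_j(m) x)`. -/
noncomputable def average {X : Type} {d k n : ℕ} (T : Fin d → Equiv.Perm X)
    (q : Fin n → Fin k → Fin d → Polynomial ℤ) (f : Fin n → X → ℂ) (M : Fin k → ℕ) (x : X) : ℂ :=
  (∏ l, (M l : ℂ))⁻¹ * ∑ m ∈ Fintype.piFinset (fun l => Finset.Icc 1 (M l)),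
    ∏ j, f j (curve T (q j) m x)

/-- Shannon entropy (natural logarithm) of the join of the partitions `g⁻¹ {A, Aᶜ}`, `g ∈ F`. The
cells of the join are indexed by the set `ω` of those `g ∈ F` for which `g x ∈ A`. -/
noncomputable def joinEntropy {X : Type} [MeasurableSpace X] (μ : Measure X)
    (G : Subgroup (Equiv.Perm X)) (A : Set X) (F : Finset G) : ℝ :=
  ∑ ω ∈ F.powerset, Real.negMulLog (μ.real {x | ∀ g ∈ F, (g : Equiv.Perm X) x ∈ A ↔ g ∈ ω})

/-- `A` has zero entropy for the action of `G`: the infimum over the finite nonempty `F ⊆ G` of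
`H(⋁_{g ∈ F} g⁻¹ {A, Aᶜ}) / |F|` is zero. -/
def ZeroEntropy {X : Type} [MeasurableSpace X] (μ : Measure X) (G : Subgroup (Equiv.Perm X))
    (A : Set X) : Prop :=
  ∀ ε : ℝ, 0 < ε → ∃ F : Finset G, F.Nonempty ∧ joinEntropy μ G A F ≤ ε * F.card

/-- Følner condition: for all finite `K ⊆ G` and `ε > 0` there is a finite nonempty `B ⊆ G` such
that for each `k ∈ K` at most `ε |B|` elements `b ∈ B` have `k b ∉ B`. -/
def HasFolnerSets (G : Type) [Group G] : Prop :=
  ∀ (K : Finset G) (ε : ℝ), 0 < ε → ∃ B : Finset G, B.Nonempty ∧ ∀ k ∈ K,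
    ∃ D : Finset G, D ⊆ B ∧ (∀ b ∈ B, b ∉ D → k * b ∈ B) ∧ (D.card : ℝ) ≤ ε * B.card

/-- The sequence `u` in the group `G` is essentially non-constant: for some `a, b` the element
`u(a)⁻¹ u(b)` has infinite order in the abelianisation `G / [G, G]`. -/
def Essential {X : Type} (G : Subgroup (Equiv.Perm X)) (u : ℤ → Equiv.Perm X) : Prop :=
  ∃ a b : ℤ, ∀ r : ℕ, 0 < r → ((u a)⁻¹ * u b) ^ r ∉ ⁅G, G⁆

/-- The `L²` maximal inequality for the linear averages (`n = 1`) along `S`. -/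
def MaximalInequality {X : Type} [MeasurableSpace X] (μ : Measure X) {k : ℕ}
    (S : (Fin k → ℕ) → Equiv.Perm X) : Prop :=
  ∃ C : ℝ≥0∞, C ≠ ∞ ∧ ∀ g : X → ℝ≥0∞, Measurable g →
    ∫⁻ x, (⨆ M : Fin k → ℕ, (∏ l, (M l : ℝ≥0∞))⁻¹ *
      ∑ m ∈ Fintype.piFinset (fun l => Finset.Icc 1 (M l)), g (S m x)) ^ 2 ∂μ ≤
    C * ∫⁻ x, (g x) ^ 2 ∂μ

/-- The Pinsker algebra of a nilpotent (or only amenable) group action is characteristic for
pointwise polynomial multiple averages. Let `T_1, …, T_d` be invertible measure-preserving maps of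
a probability space which generate a nilpotent group `G` (more generally a group with Følner sets),
let `𝒩` be a σ-algebra containing, modulo null sets, every measurable set of zero entropy, and let
`S_j(m) = T_1^{P_{1,j}(m)} ⋯ T_d^{P_{d,j}(m)}`, `P_{i,j}(m) = ∑_l q_{j,l,i}(m_l)`, `j ≤ n`,
`m ∈ ℕ^k`, `k ≥ 1`, such that
* for each `j` the maps `T_i` which occur in `S_j` commute with each other (or at least the linear
  maximal inequality holds along `S_j`);
* each `S_j` is essentially non-constant in each variable, and each `S_i⁻¹ S_j`, `i ≠ j`, in at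
  least one variable.
Then for all `f_1, …, f_n ∈ L^∞(μ)` the averages of `f_1, …, f_n` and those of the conditional
expectations `E(f_1 | 𝒩), …, E(f_n | 𝒩)` differ by a quantity which tends to zero a.e. as
`min_l M_l → ∞` (unrestricted limit). -/
theorem result (d k n : ℕ) (hk : 0 < k) (X : Type) (𝒩 : MeasurableSpace X)
    [mX : MeasurableSpace X] (h𝒩 : 𝒩 ≤ mX) (μ : Measure X) [IsProbabilityMeasure μ]
    (T : Fin d → Equiv.Perm X)
    (hT : ∀ i, Measurable (T i) ∧ Measurable (T i).symm ∧ MeasurePreserving (T i) μ μ)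
    (hG : Group.IsNilpotent (Subgroup.closure (Set.range T)) ∨
      HasFolnerSets (Subgroup.closure (Set.range T)))
    (hZ : ∀ A : Set X, MeasurableSet A → ZeroEntropy μ (Subgroup.closure (Set.range T)) A →
      ∃ B, MeasurableSet[𝒩] B ∧ A =ᵐ[μ] B)
    (q : Fin n → Fin k → Fin d → Polynomial ℤ)
    (hmax : ∀ j, (∀ i i', (∃ l, q j l i ≠ 0) → (∃ l, q j l i' ≠ 0) → T i * T i' = T i' * T i) ∨
      MaximalInequality μ (curve T (q j)))
    (h1 : ∀ j l, Essential (Subgroup.closure (Set.range T)) fun t =>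
      word T fun i => (q j l i).eval t)
    (h2 : ∀ i j, i ≠ j → ∃ l, Essential (Subgroup.closure (Set.range T)) fun t =>
      (word T fun i' => (q i l i').eval t)⁻¹ * word T fun i' => (q j l i').eval t)
    (f : Fin n → X → ℂ) (hf : ∀ j, MemLp (f j) ⊤ μ) :
    ∀ᵐ x ∂μ, Tendsto (fun M : Fin k → ℕ =>
      average T q f M x - average T q (fun j => μ[f j | 𝒩]) M x) atTop (𝓝 0) := by
  have : Nonempty (Fin k) := ⟨⟨0, hk⟩⟩
  have hcount := Pool.Agent.Lib.Pf720np.countable_closure T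
  have hE : Pool.Agent.Lib.Pf720np.TailZero (Subgroup.closure (Set.range T)) := by
    rcases hG with hG | hG
    · exact Pool.Agent.Lib.Pf720np.tailZero_of_nilpotent _
    · exact Pool.Agent.Lib.Pf720np.tailZero_of_folner _ (Pool.Agent.Lib.Pf720np.folner_of hG)
  refine Pool.Agent.Lib.Pf720np.main 𝒩 h𝒩 T hT hE hZ q (fun j => ?_) (fun j l => ?_)
    (fun i j hij => ?_) f hf
  · rcases hmax j with h | h
    · exact Pool.Agent.Lib.Pf720np.maxBd_pw T hT (q j) h
    · have h' := Pool.Agent.Lib.Pf720np.maxBd_of (μ := μ)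
        (fun (m : Fin k → ℕ) (x : X) => curve T (q j) m x) h
      have e : (fun (m : Fin k → ℕ) (x : X) => Pool.Agent.Lib.Pf720np.pact T
          (Pool.Agent.Lib.Pf720np.gw (Pool.Agent.Lib.Pf720np.gens T)
            (Pool.Agent.Lib.Pf720np.ex (q j) m)) x) =
          fun (m : Fin k → ℕ) (x : X) => curve T (q j) (m + 1) x := by
        funext m x
        rw [Pool.Agent.Lib.Pf720np.pact_gw]
        rfl
      rw [e]
      exact h'
  · refine Pool.Agent.Lib.Pf720np.ess_of ?_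
    have := h1 j l
    simp only [Pool.Agent.Lib.Pf720np.coe_gw]
    exact this
  · obtain ⟨l, hl⟩ := h2 i j hij
    refine ⟨l, Pool.Agent.Lib.Pf720np.ess_of ?_⟩
    simp only [Subgroup.coe_mul, Subgroup.coe_inv, Pool.Agent.Lib.Pf720np.coe_gw]
    exact hl

end Pool.Agent.Lib.Pf720np.Hand
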