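import Pool.Agent.Lib.Pf720np.MDiff
import Pool.Agent.Lib.Pf720pp.Core
import Pool.Agent.Lib.Pf720pi.TailLimit
import Pool.Agent.Lib.Pf720ae.Poly.MaxBd

/-!
# Averages tending to zero: linearity and closure under the maximal inequality
-/

set_option autoImplicit false
set_option linter.unusedSectionVars false

open Finset MeasureTheory Filter Topology
open scoped ENNReal

namespace Pool.Agent.Lib.Pf720np

open Pool.Agent.Lib.Pf720ae

variable {κ : Type} [Fintype κ] [DecidableEq κ] {J : Type} [Fintype J] [DecidableEq J]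

/-- the averages tend to zero almost everywhere -/
def Nul {X : Type} {mX : MeasurableSpace X} (μ : Measure X) (U : J → (κ → ℕ) → X → X)
    (F : J → X → ℝ) : Prop :=
  ∀ᵐ x ∂μ, Tendsto (fun M : κ → ℕ => avg M fun m => ∏ j, F j (U j m x)) atTop (𝓝 0)

section

variable {X : Type} {mX : MeasurableSpace X} {μ : Measure X} {U : J → (κ → ℕ) → X → X}

lemma prod_update (F : J → X → ℝ) (a : J) (θ : X → ℝ) (x : X) (m : κ → ℕ) :
    ∏ j, Function.update F a θ j (U j m x) =
      θ (U a m x) * ∏ j ∈ Finset.univ.erase a, F j (U j m x) := by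
  rw [← Finset.mul_prod_erase Finset.univ _ (Finset.mem_univ a), Function.update_self]
  congr 1
  refine Finset.prod_congr rfl fun j hj => ?_
  rw [Function.update_of_ne (Finset.ne_of_mem_erase hj)]

lemma Nul.add {F : J → X → ℝ} {a : J} {θ₁ θ₂ : X → ℝ}
    (h1 : Nul μ U (Function.update F a θ₁)) (h2 : Nul μ U (Function.update F a θ₂)) :
    Nul μ U (Function.update F a fun x => θ₁ x + θ₂ x) := by
  filter_upwards [h1, h2] with x a1 a2
  have h := a1.add a2
  rw [add_zero] at h
  refine h.congr fun M => ?_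
  rw [← avg_add]
  congr 1
  funext m
  rw [prod_update, prod_update, prod_update]
  ring

lemma Nul.smul {F : J → X → ℝ} {a : J} {θ : X → ℝ} (c : ℝ)
    (h1 : Nul μ U (Function.update F a θ)) :
    Nul μ U (Function.update F a fun x => c * θ x) := by
  filter_upwards [h1] with x a1
  have h := a1.const_mul c
  rw [mul_zero] at h
  refine h.congr fun M => ?_
  rw [← avg_smul]
  congr 1
  funext m
  rw [prod_update, prod_update]
  ring

lemma Nul.zero (F : J → X → ℝ) (a : J) : Nul μ U (Function.update F a fun _ => 0) := by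
  filter_upwards with x
  refine tendsto_const_nhds.congr fun M => ?_
  have : (fun m : κ → ℕ => ∏ j, Function.update F a (fun _ => (0 : ℝ)) j (U j m x)) =
      fun m => 0 * (0 : ℝ) := by
    funext m
    rw [prod_update, zero_mul, zero_mul]
  rw [this, avg_smul, zero_mul]

/-- closure of one slot in mean square -/
lemma Nul.closure [IsFiniteMeasure μ] {F : J → X → ℝ} {a : J} (hMax : MaxBd μ (U a))
    (hU : ∀ m, MeasurePreserving (U a m) μ μ)
    (hF1 : ∀ j, j ≠ a → ∀ x, |F j x| ≤ 1) (hFa : Measurable (F a))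
    {θ : ℕ → X → ℝ} (hθ : ∀ i, Measurable (θ i))
    (hC : ∀ i, Nul μ U (Function.update F a (θ i)))
    (ht : Tendsto (fun i => ∫⁻ x, (ENNReal.ofReal |F a x - θ i x|) ^ 2 ∂μ) atTop (𝓝 0)) :
    Nul μ U F := by
  obtain ⟨A, hA, hmax⟩ := hMax
  set g : ℕ → X → ℝ≥0∞ := fun n x => ENNReal.ofReal |F a x - θ n x| with hg
  have hgm : ∀ n, Measurable (g n) := fun n =>
    (continuous_abs.measurable.comp (hFa.sub (hθ n))).ennreal_ofReal
  have hUm : ∀ m, Measurable (U a m) := fun m => (hU m).measurable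
  have hlim : ∫⁻ x, liminf (fun n => (NS (U a) (g n) x) ^ 2) atTop ∂μ = 0 := by
    have h1 : ∫⁻ x, liminf (fun n => (NS (U a) (g n) x) ^ 2) atTop ∂μ
        ≤ liminf (fun n => ∫⁻ x, (NS (U a) (g n) x) ^ 2 ∂μ) atTop :=
      lintegral_liminf_le fun n => (measurable_NS hUm (hgm n)).pow_const 2
    have h2 : Tendsto (fun n => ∫⁻ x, (NS (U a) (g n) x) ^ 2 ∂μ) atTop (𝓝 0) := by
      have h3 : Tendsto (fun n => A * ∫⁻ x, (g n x) ^ 2 ∂μ) atTop (𝓝 (A * 0)) :=
        ENNReal.Tendsto.const_mul ht (Or.inr hA)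
      rw [mul_zero] at h3
      exact tendsto_of_tendsto_of_tendsto_of_le_of_le tendsto_const_nhds h3
        (fun _ => zero_le) (fun n => hmax _ (hgm n))
    rw [h2.liminf_eq] at h1
    exact le_antisymm h1 zero_le
  have hae : ∀ᵐ x ∂μ, liminf (fun n => (NS (U a) (g n) x) ^ 2) atTop = 0 := by
    rw [lintegral_eq_zero_iff (Measurable.liminf fun n =>
      (measurable_NS hUm (hgm n)).pow_const 2)] at hlim
    exact hlim
  have hCall := ae_all_iff.2 hC
  filter_upwards [hae, hCall] with x hx hCx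
  rw [Metric.tendsto_nhds]
  intro ε hε
  have h1 : liminf (fun n => (NS (U a) (g n) x) ^ 2) atTop < (ENNReal.ofReal (ε / 2)) ^ 2 := by
    rw [hx]
    have : 0 < ENNReal.ofReal (ε / 2) := ENNReal.ofReal_pos.2 (by positivity)
    positivity
  obtain ⟨n, hn⟩ := (frequently_lt_of_liminf_lt (by isBoundedDefault) h1).exists
  have hn' : NS (U a) (g n) x < ENNReal.ofReal (ε / 2) := by
    by_contra hcon
    exact absurd hn (not_lt.2 (pow_le_pow_left' (not_lt.1 hcon) 2))
  have h5 := (Metric.tendsto_nhds.1 (hCx n)) (ε / 2) (by positivity)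
  filter_upwards [eventually_pos, h5] with M hM h6
  rw [Real.dist_eq, sub_zero] at h6 ⊢
  have h2 : |(avg M fun m => ∏ j, F j (U j m x)) -
      avg M fun m => ∏ j, Function.update F a (θ n) j (U j m x)|
      ≤ avg M fun m => |F a (U a m x) - θ n (U a m x)| := by
    rw [← avg_sub]
    refine (abs_avg_le _ _).trans (avg_mono M fun m => ?_)
    rw [prod_update, ← Finset.mul_prod_erase Finset.univ _ (Finset.mem_univ a), ← sub_mul,
      abs_mul]
    refine mul_le_of_le_one_right (abs_nonneg _) ?_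
    rw [Finset.abs_prod]
    exact Finset.prod_le_one (fun i _ => abs_nonneg _) fun j hj =>
      hF1 j (Finset.ne_of_mem_erase hj) _
  have h3 := ofReal_avg_le_NS (U := U a) hM (fun x => |F a x - θ n x|) (fun x => abs_nonneg _) x
  have h4 : ENNReal.ofReal (avg M fun m => |F a (U a m x) - θ n (U a m x)|) <
      ENNReal.ofReal (ε / 2) := lt_of_le_of_lt h3 hn'
  have h7 := (ENNReal.ofReal_lt_ofReal_iff (by positivity)).1 h4
  have h8 := abs_sub_abs_le_abs_sub (avg M fun m => ∏ j, F j (U j m x))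
    (avg M fun m => ∏ j, Function.update F a (θ n) j (U j m x))
  linarith

end

end Pool.Agent.Lib.Pf720np
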